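import Pool.Agent.V7H57.FL.Rho

/-!
# Commensurating elements which are hyperbolic on the tree give `ℤ²`
-/

set_option autoImplicit false

open Metric Set Filter Topology
open Pool.Agent.TH60.FP Pool.Agent.TH60.FP.Strip Pool.Agent.Y34.HB Pool.Agent.Y34.EL
open Pool.Agent.T6.H46.RR Pool.Agent.T6.H67.TA Pool.Agent.T6.H46.RC Pool.Agent.V7H57.RK

namespace Pool.Agent.V7H57.FL

variable {X : Type} [MetricSpace X] {G : Type} [Group G] [MulAction G X]

/-- independent commuting elements -/
lemma z2_of_comm {x y : G} (hxy : x * y = y * x)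
    (h : ∀ m n : ℤ, x ^ m * y ^ n = 1 → m = 0 ∧ n = 0) :
    ∃ φ : Multiplicative (ℤ × ℤ) →* G, Function.Injective φ := by
  have hc : Commute x y := hxy
  refine ⟨{ toFun := fun z => x ^ (Multiplicative.toAdd z).1 * y ^ (Multiplicative.toAdd z).2
            map_one' := by simp
            map_mul' := ?_ }, ?_⟩
  · intro z w
    rw [toAdd_mul, Prod.fst_add, Prod.snd_add, zpow_add, zpow_add]
    have e := (hc.zpow_zpow (Multiplicative.toAdd w).1 (Multiplicative.toAdd z).2).eq
    calc x ^ (Multiplicative.toAdd z).1 * x ^ (Multiplicative.toAdd w).1 *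
          (y ^ (Multiplicative.toAdd z).2 * y ^ (Multiplicative.toAdd w).2)
        = x ^ (Multiplicative.toAdd z).1 * (x ^ (Multiplicative.toAdd w).1 *
          y ^ (Multiplicative.toAdd z).2) * y ^ (Multiplicative.toAdd w).2 := by group
      _ = _ := by rw [e]; group
  · rw [injective_iff_map_eq_one]
    intro z hz
    obtain ⟨h1, h2⟩ := h _ _ hz
    exact Multiplicative.toAdd.injective (Prod.ext h1 h2)

/-- the translation length -/
lemma trans_len (hG : Geo X G) (o : X) {a : G} (ha : ∀ n : ℕ, 0 < n → a ^ n ≠ 1) {g : G}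
    {r s : ℤ} (h : g * a ^ r * g⁻¹ = a ^ s) : s = r ∨ s = -r := by
  have := hG.isom
  obtain ⟨y, hy⟩ := exists_torus_point hG (Subgroup.zpowers a)
    ⟨{a}, by rw [Finset.coe_singleton, Subgroup.zpowers_eq_closure]⟩
    (by
      rintro _ ⟨m, rfl⟩ _ ⟨n, rfl⟩
      show a ^ m * a ^ n = a ^ n * a ^ m
      rw [← zpow_add, ← zpow_add, add_comm]) o
  have hmin := hy a (Subgroup.mem_zpowers a)
  set τ := dist y (a • y) with hτ
  have hnat : ∀ n : ℕ, dist y (a ^ n • y) = n * τ := growth_of_isMin hG.cn hmin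
  have hτ0 : 0 < τ := by
    rcases eq_or_lt_of_le (dist_nonneg (x := y) (y := a • y)) with h0 | h0
    · exfalso
      have h1 : ∀ n : ℕ, a ^ n ∈ {s : G | dist y (s • y) ≤ 0} := by
        intro n
        show dist y (a ^ n • y) ≤ 0
        rw [hnat, hτ, ← h0, mul_zero]
      have hinj : Function.Injective (fun n : ℕ => a ^ n) := by
        have key : ∀ m n : ℕ, m < n → a ^ m ≠ a ^ n := by
          intro m n hmn he
          apply ha (n - m) (by omega)
          have : a ^ m * a ^ (n - m) = a ^ m := by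
            rw [← pow_add, Nat.add_sub_cancel' hmn.le, he]
          exact mul_eq_left.1 this
        intro m n he
        rcases lt_trichotomy m n with h2 | h2 | h2
        · exact absurd he (key m n h2)
        · exact h2
        · exact absurd he.symm (key n m h2)
      exact Set.infinite_of_injective_forall_mem hinj h1 (finite_short hG y 0)
    · exact h0
  have hz : ∀ m : ℤ, dist y (a ^ m • y) = |(m : ℝ)| * τ := by
    intro m
    obtain ⟨n, rfl | rfl⟩ := m.eq_nat_or_neg
    · rw [zpow_natCast, hnat]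
      simp
    · rw [zpow_neg, zpow_natCast, ← dist_smul (a ^ n), smul_inv_smul, dist_comm, hnat]
      simp
  have e1 := hy (a ^ s) (Subgroup.zpow_mem_zpowers a s) (g • y)
  have e2 := hy (a ^ r) (Subgroup.zpow_mem_zpowers a r) (g⁻¹ • y)
  have f1 : dist (g • y) (a ^ s • g • y) = |(r : ℝ)| * τ := by
    rw [← h, ← hz, mul_smul, mul_smul, inv_smul_smul, dist_smul]
  have f2 : dist (g⁻¹ • y) (a ^ r • g⁻¹ • y) = |(s : ℝ)| * τ := by
    rw [← hz, ← h, mul_smul, mul_smul, ← dist_smul g, smul_inv_smul]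
  rw [f1, hz] at e1
  rw [f2, hz] at e2
  have g1 := le_of_mul_le_mul_right e1 hτ0
  have g2 := le_of_mul_le_mul_right e2 hτ0
  have g3 : |(s : ℝ)| = |(r : ℝ)| := le_antisymm g1 g2
  rcases abs_eq_abs.1 g3 with h1 | h1
  · left; exact_mod_cast h1
  · right; exact_mod_cast h1

/-- infinite subgroups of finitely generated virtually abelian groups are not torsion groups -/
lemma exists_inf_order {A' K L : Subgroup G} (hfin : A'.relIndex K ≠ 0) (hfg : A'.FG)
    (hcomm : ∀ a ∈ A', ∀ b ∈ A', a * b = b * a) (hL : L ≤ K) (hinf : (L : Set G).Infinite) :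
    ∃ a ∈ L, ∀ n : ℕ, 0 < n → a ^ n ≠ 1 := by
  classical
  let _ : CommGroup A' := { (inferInstance : Group A') with
    mul_comm := fun a b => Subtype.ext (hcomm a a.2 b b.2) }
  have : Group.FG A' := (Group.fg_iff_subgroup_fg A').2 hfg
  obtain ⟨ι, j, _, _, p, hp, e, ⟨Φ⟩⟩ := CommGroup.equiv_free_prod_prod_multiplicative_zmod A'
  by_contra hc
  push Not at hc
  have hne : ∀ i, NeZero (p i ^ e i) := fun i => ⟨pow_ne_zero _ (hp i).ne_zero⟩
  have hfinQ : Finite ((i : ι) → Multiplicative (ZMod (p i ^ e i))) := by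
    have : ∀ i, Finite (Multiplicative (ZMod (p i ^ e i))) := fun i => by
      have := hne i
      infer_instance
    infer_instance
  -- elements of `L ∩ A'` have trivial free part
  have h1 : ∀ a : A', (a : G) ∈ L → (Φ a).1 = 1 := by
    intro a haL
    obtain ⟨n, hn, han⟩ := hc a haL
    have h2 : a ^ n = 1 := Subtype.ext (by rw [Subgroup.coe_pow, han]; rfl)
    have h3 : (Φ a).1 ^ n = 1 := by
      have : Φ (a ^ n) = 1 := by rw [h2, map_one]
      rw [map_pow] at this
      exact congrArg Prod.fst this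
    funext i
    have h4 : ((Φ a).1 i) ^ n = 1 := congrFun h3 i
    have h5 : n • Multiplicative.toAdd ((Φ a).1 i) = 0 := by
      rw [← toAdd_pow, h4]; rfl
    have h6 : Multiplicative.toAdd ((Φ a).1 i) = 0 := by
      rcases smul_eq_zero.1 h5 with h | h
      · omega
      · exact h
    exact Multiplicative.toAdd.injective h6
  have hM : ((A' ⊓ L : Subgroup G) : Set G).Finite := by
    have h2 : (Set.range fun z : {a : A' // (a : G) ∈ L} => ((z : A') : G)).Finite := by
      have : Finite {a : A' // (a : G) ∈ L} := by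
        refine Finite.of_injective (fun z => (Φ (z : A')).2) ?_
        intro z w hzw
        have h3 : Φ (z : A') = Φ (w : A') := Prod.ext ((h1 _ z.2).trans (h1 _ w.2).symm) hzw
        exact Subtype.ext (Φ.injective h3)
      exact Set.finite_range _
    refine h2.subset ?_
    rintro a ⟨ha1, ha2⟩
    exact ⟨⟨⟨a, ha1⟩, ha2⟩, rfl⟩
  have hidx : (A' ⊓ L).relIndex L ≠ 0 := by
    rw [Subgroup.inf_relIndex_right]
    exact fun h => hfin (Subgroup.relIndex_eq_zero_of_le_right hL h)
  obtain ⟨F, hF, hrep⟩ := exists_reps hidx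
  apply hinf
  refine ((hM.prod hF).image fun z : G × G => z.1 * z.2).subset ?_
  intro s hs
  obtain ⟨r, hr, hsr⟩ := hrep s hs
  exact ⟨(s * r⁻¹, r), ⟨hsr, hr⟩, by group⟩

variable {V : Type} {T : SimpleGraph V} (hT : T.IsTree) [MulAction G V]
  (hact : ∀ (g : G) (u v : V), T.Adj u v → T.Adj (g • u) (g • v))

include hT hact in
/-- an element which shifts an edge and maps an infinite subgroup of a virtually abelian group which
fixes the edge back into this group -/
theorem z2_final (hG : Geo X G) (o : X) {u v : V} (huv : T.Adj u v) {g : G} (hg : Sh T u v g)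
    {A' K : Subgroup G} (hfin : A'.relIndex K ≠ 0) (hfg : A'.FG)
    (hcomm : ∀ a ∈ A', ∀ b ∈ A', a * b = b * a) {L : Subgroup G} (hL : L ≤ K)
    (hinf : (L : Set G).Infinite) (hLg : ∀ a ∈ L, g⁻¹ * a * g ∈ K) (hu : ∀ a ∈ L, a • u = u) :
    ∃ φ : Multiplicative (ℤ × ℤ) →* G, Function.Injective φ := by
  by_contra hno
  obtain ⟨a, haL, ha⟩ := exists_inf_order hfin hfg hcomm hL hinf
  obtain ⟨P, hP, -, hPa⟩ := Subgroup.exists_pow_mem_of_relIndex_ne_zero hfin (hL haL)
  obtain ⟨Q, hQ, -, hQa⟩ := Subgroup.exists_pow_mem_of_relIndex_ne_zero hfin (hLg a haL)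
  have hconj : ∀ n : ℤ, (g⁻¹ * a * g) ^ n = g⁻¹ * a ^ n * g := by
    intro n
    have := conj_zpow (a := g⁻¹) (b := a) (i := n)
    rwa [inv_inv] at this
  have haz : ∀ n : ℤ, a ^ n = 1 → n = 0 := by
    intro n hn
    by_contra hn0
    apply ha n.natAbs (Int.natAbs_pos.2 hn0)
    rcases Int.natAbs_eq n with h | h
    · rw [h, zpow_natCast] at hn; exact hn
    · rw [h, zpow_neg, zpow_natCast, inv_eq_one] at hn; exact hn
  have hind : ∃ m n : ℤ, (a ^ P) ^ m * ((g⁻¹ * a * g) ^ Q) ^ n = 1 ∧ ¬ (m = 0 ∧ n = 0) := by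
    by_contra hc
    push Not at hc
    apply hno
    exact z2_of_comm (hcomm _ hPa.1 _ hQa.1) fun m n h => hc m n h
  obtain ⟨m, n, hmn, hmn0⟩ := hind
  have e1 : (a ^ P) ^ m = a ^ ((P : ℤ) * m) := by rw [zpow_mul, zpow_natCast]
  have e2 : ((g⁻¹ * a * g) ^ Q) ^ n = g⁻¹ * a ^ ((Q : ℤ) * n) * g := by
    rw [← hconj, zpow_mul, zpow_natCast]
  rw [e1, e2] at hmn
  have hm : m ≠ 0 := by
    rintro rfl
    rw [mul_zero, zpow_zero, one_mul] at hmn
    have h1 : a ^ ((Q : ℤ) * n) = 1 := by
      have : a ^ ((Q : ℤ) * n) = g * (g⁻¹ * a ^ ((Q : ℤ) * n) * g) * g⁻¹ := by group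
      rw [this, hmn]; group
    have h2 := haz _ h1
    have h3 : (Q : ℤ) ≠ 0 := by exact_mod_cast hQ.ne'
    exact hmn0 ⟨rfl, (mul_eq_zero.1 h2).resolve_left h3⟩
  have hrel : g * a ^ ((P : ℤ) * m) * g⁻¹ = a ^ (-((Q : ℤ) * n)) := by
    have h1 : a ^ ((P : ℤ) * m) = (g⁻¹ * a ^ ((Q : ℤ) * n) * g)⁻¹ := eq_inv_of_mul_eq_one_left hmn
    rw [h1, zpow_neg]; group
  set r : ℤ := (P : ℤ) * m with hr
  have hr0 : r ≠ 0 := mul_ne_zero (by exact_mod_cast hP.ne') hm
  have hlen := trans_len hG o ha hrel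
  have hcomm2 : g ^ 2 * a ^ r = a ^ r * g ^ 2 := by
    have h1 : g * a ^ r = a ^ (-((Q : ℤ) * n)) * g := by rw [← hrel]; group
    rcases hlen with h2 | h2
    · rw [h2] at h1
      rw [pow_two, mul_assoc, h1, ← mul_assoc, h1, mul_assoc]
    · rw [h2] at h1
      have h3 : g * a ^ (-r) = a ^ r * g := by
        have h4 : g = a ^ (-r) * g * a ^ (-r) := by
          rw [← h1]
          rw [mul_assoc, ← zpow_add, add_neg_cancel, zpow_zero, mul_one]
        calc g * a ^ (-r) = a ^ r * (a ^ (-r) * g * a ^ (-r)) := by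
              rw [← mul_assoc, ← mul_assoc, ← zpow_add, add_neg_cancel, zpow_zero, one_mul]
          _ = a ^ r * g := by rw [← h4]
      rw [pow_two, mul_assoc, h1, ← mul_assoc, h3, mul_assoc]
  apply hno
  refine z2_of_comm hcomm2 fun m' n' h => ?_
  have haxis := (sh_axis hT hact huv.ne hg).1
  have hpos : 0 < D T u (g • u) := haxis.1
  have hau : ∀ i : ℤ, a ^ i • u = u := by
    intro i
    have : a ^ i ∈ MulAction.stabilizer G u :=
      Subgroup.zpow_mem _ (MulAction.mem_stabilizer_iff.2 (hu a haL)) i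
    exact this
  have h1 : (g ^ 2) ^ m' • u = u := by
    have h2 : (a ^ r) ^ n' • u = u := by rw [← zpow_mul]; exact hau _
    have h3 := congrArg (fun x : G => x • u) h
    simp only [one_smul] at h3
    rw [mul_smul, h2] at h3
    exact h3
  have hm' : m' = 0 := by
    by_contra hne
    have h2 : ∀ i : ℕ, (g ^ 2) ^ i • u = u → i = 0 := by
      intro i hi
      rw [← pow_mul] at hi
      have h3 := D_pow hT hact haxis (2 * i)
      rw [hi, D_self] at h3
      rcases mul_eq_zero.1 h3.symm with h4 | h4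
      · have : 2 * i = 0 := by exact_mod_cast h4
        omega
      · omega
    have h3 : (g ^ 2) ^ m'.natAbs • u = u := by
      rcases Int.natAbs_eq m' with h4 | h4
      · rw [h4, zpow_natCast] at h1; exact h1
      · rw [h4, zpow_neg, zpow_natCast, inv_smul_eq_iff] at h1; exact h1.symm
    have := h2 _ h3
    omega
  refine ⟨hm', ?_⟩
  rw [hm', zpow_zero, one_mul, ← zpow_mul] at h
  exact (mul_eq_zero.1 (haz _ h)).resolve_left hr0

end Pool.Agent.V7H57.FL
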