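import Pool.Agent.V7H57.FL.Rho

/-!
# Sides of edges and crossings
-/

set_option autoImplicit false

open Metric Set Filter Topology
open Pool.Agent.TH60.FP Pool.Agent.TH60.FP.Strip Pool.Agent.Y34.HB Pool.Agent.Y34.EL
open Pool.Agent.T6.H46.RR Pool.Agent.T6.H67.TA Pool.Agent.T6.H46.RC Pool.Agent.V7H57.RK

namespace Pool.Agent.V7H57.FL

variable {X : Type} [MetricSpace X] {G : Type} [Group G] [MulAction G X]
variable {V : Type} {T : SimpleGraph V} [MulAction G V]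

/-- the edge has a translate in the finite set `E0` and `x` is near its convex set -/
def Ins (G : Type) [Group G] [MulAction G V] (ρ : V → V → X → ℝ) (E0 : Set (V × V)) (C : ℝ)
    (a b : V) (x : X) : Prop :=
  (∃ k : G, (k • a, k • b) ∈ E0) ∧ ρ a b x ≤ C

/-- `x` is near an orbit point `g o` such that `g v0` is on the side of `b` -/
def Sd (G : Type) [Group G] [MulAction G V] [MulAction G X] (T : SimpleGraph V) (o : X) (D0 : ℝ)
    (v0 : V) (a b : V) (x : X) : Prop :=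
  ∃ g : G, dist x (g • o) ≤ D0 ∧ D T (g • v0) b < D T (g • v0) a

/-- all the data -/
structure Dat (G : Type) [Group G] [MulAction G V] [MulAction G X] (T : SimpleGraph V) (o : X)
    (D0 : ℝ) (v0 : V) (ρ : V → V → X → ℝ) (E0 : Set (V × V)) (C : ℝ) : Prop where
  geo : Geo X G
  tree : T.IsTree
  act : ∀ (g : G) (u v : V), T.Adj u v → T.Adj (g • u) (g • v)
  rho : Rho G T ρ
  cov : ∀ x : X, ∃ g : G, dist x (g • o) ≤ D0
  fin : E0.Finite
  adj : ∀ e ∈ E0, T.Adj e.1 e.2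
  sym : ∀ e ∈ E0, (e.2, e.1) ∈ E0
  cross : ∀ a b, T.Adj a b → ∀ x y : X, dist x y ≤ 1 → Sd G T o D0 v0 b a x →
    Sd G T o D0 v0 a b y → Ins G ρ E0 C a b x ∧ Ins G ρ E0 C a b y

/-- the vertices of a segment -/
lemma finite_seg (hT : T.IsTree) (u v : V) : {p : V | D T u p + D T p v = D T u v}.Finite := by
  refine Set.Finite.of_injOn (f := fun p => D T u p) (t := Set.Icc 0 (D T u v)) ?_ ?_
    (Set.finite_Icc _ _)
  · intro p hp
    rw [Set.mem_ofPred_eq] at hp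
    have := D_nonneg (T := T) u p
    have := D_nonneg (T := T) p v
    exact ⟨by omega, by show D T u p ≤ D T u v; omega⟩
  · intro p hp q hq h
    have h' : D T u p = D T u q := h
    have h1 := D_on_geod hT hp hq h'.le
    exact D_eq_zero hT (by omega)

theorem exists_dat (hG : Geo X G) (hT : T.IsTree)
    (hact : ∀ (g : G) (u v : V), T.Adj u v → T.Adj (g • u) (g • v))
    (hE : ∀ a b : V, T.Adj a b → ∃ B : Set X, CC (St G a b) B) (o : X) (v0 : V) :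
    ∃ (D0 : ℝ) (ρ : V → V → X → ℝ) (E0 : Set (V × V)) (C : ℝ), Dat G T o D0 v0 ρ E0 C := by
  classical
  have := hG.isom
  have := hG.proper
  obtain ⟨ρ, hρ⟩ := exists_rho hG hact hE
  obtain ⟨K, hK, hcov⟩ := hG.cc
  obtain ⟨D0, hD0⟩ := hK.isBounded.subset_closedBall o
  have hcov' : ∀ x : X, ∃ g : G, dist x (g • o) ≤ D0 := by
    intro x
    obtain ⟨g, hg⟩ := hcov x
    refine ⟨g⁻¹, ?_⟩
    rw [← dist_smul g, smul_inv_smul]
    exact mem_closedBall.1 (hD0 hg)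
  set Γ : Set G := {h | dist o (h • o) ≤ 2 * D0 + 1} with hΓ
  have hΓf : Γ.Finite := finite_short hG o _
  set E0 : Set (V × V) := {e | T.Adj e.1 e.2 ∧ ∃ h ∈ Γ,
    D T v0 e.1 + D T e.1 (h • v0) = D T v0 (h • v0) ∧
    D T v0 e.2 + D T e.2 (h • v0) = D T v0 (h • v0)} with hE0
  have hfin : E0.Finite := by
    refine (hΓf.biUnion (t := fun h => {p : V | D T v0 p + D T p (h • v0) = D T v0 (h • v0)} ×ˢ
      {p : V | D T v0 p + D T p (h • v0) = D T v0 (h • v0)}) fun h _ =>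
      (finite_seg hT _ _).prod (finite_seg hT _ _)).subset ?_
    rintro e ⟨-, h, hh, h1, h2⟩
    exact mem_biUnion hh ⟨h1, h2⟩
  obtain ⟨M, hM⟩ := (hfin.image (fun e => ρ e.1 e.2 o)).bddAbove
  refine ⟨D0, ρ, E0, M + D0 + 1, hG, hT, hact, hρ, hcov', hfin, fun e he => he.1, ?_, ?_⟩
  · rintro e ⟨h1, h, hh, h2, h3⟩
    exact ⟨h1.symm, h, hh, h3, h2⟩
  · rintro a b hab x y hxy ⟨g, hg1, hg2⟩ ⟨h, hh1, hh2⟩
    have e1 : g⁻¹ * h ∈ Γ := by
      show dist o ((g⁻¹ * h) • o) ≤ 2 * D0 + 1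
      rw [mul_smul, ← dist_smul g, smul_inv_smul]
      have := dist_triangle4 (g • o) x y (h • o)
      rw [dist_comm (g • o) x] at this
      linarith
    have a1 := adj_pm hT hab (g • v0)
    have a2 := adj_pm hT hab (h • v0)
    rw [D_comm b, D_comm a] at a1
    rw [D_comm b, D_comm a] at a2
    have e2 := sep_edge hT (adj_D hab) (w := g • v0) (u := h • v0) (by omega)
      (by rw [D_comm a, D_comm b]; omega)
    have i1 : ∀ p q : V, D T (g⁻¹ • p) (g⁻¹ • q) = D T p q := D_smul hT hact g⁻¹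
    have i2 : ∀ p : V, D T v0 (g⁻¹ • p) = D T (g • v0) p := by
      intro p
      rw [← D_smul hT hact g v0, smul_inv_smul]
    have hmem : (g⁻¹ • a, g⁻¹ • b) ∈ E0 := by
      refine ⟨hact _ _ _ hab, g⁻¹ * h, e1, ?_, ?_⟩
      · show D T v0 (g⁻¹ • a) + D T (g⁻¹ • a) ((g⁻¹ * h) • v0) = D T v0 ((g⁻¹ * h) • v0)
        rw [mul_smul, i1, i2, i2, D_comm a (h • v0)]
        rw [D_comm b (h • v0)] at e2
        omega
      · show D T v0 (g⁻¹ • b) + D T (g⁻¹ • b) ((g⁻¹ * h) • v0) = D T v0 ((g⁻¹ * h) • v0)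
        rw [mul_smul, i1, i2, i2]
        omega
    have hx : ρ a b x ≤ M + D0 := by
      rw [← hρ.inv a b hab g⁻¹ x]
      have h1 := hρ.lip (g⁻¹ • a) (g⁻¹ • b) (g⁻¹ • x) o
      have h2 : dist (g⁻¹ • x) o = dist x (g • o) := by rw [← dist_smul g, smul_inv_smul]
      have h3 : ρ (g⁻¹ • a) (g⁻¹ • b) o ≤ M := hM ⟨_, hmem, rfl⟩
      linarith
    have hy := hρ.lip a b y x
    rw [dist_comm] at hy
    exact ⟨⟨⟨g⁻¹, hmem⟩, by linarith⟩, ⟨⟨g⁻¹, hmem⟩, by linarith⟩⟩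

variable {o : X} {D0 : ℝ} {v0 : V} {ρ : V → V → X → ℝ} {E0 : Set (V × V)} {C : ℝ}

lemma Ins.symm (h : Dat G T o D0 v0 ρ E0 C) {a b : V} {x : X} (hi : Ins G ρ E0 C a b x) :
    Ins G ρ E0 C b a x := by
  obtain ⟨⟨k, hk⟩, h2⟩ := hi
  refine ⟨⟨k, h.sym _ hk⟩, ?_⟩
  rw [h.rho.symm]; exact h2

/-- uniform cocompactness on the edges of `E0` -/
lemma Dat.unif (h : Dat G T o D0 v0 ρ E0 C) (r : ℝ) : ∃ R : ℝ, ∀ a b : V, ∀ k : G,
    (k • a, k • b) ∈ E0 → ∀ x : X, ρ a b x ≤ r → ∃ g : G, g • k • a = k • a ∧ g • k • b = k • b ∧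
      dist (g • k • x) o ≤ R := by
  classical
  have hc : ∀ e : V × V, ∃ R : ℝ, e ∈ E0 → ∀ x, ρ e.1 e.2 x ≤ r →
      ∃ g ∈ St G e.1 e.2, dist (g • x) o ≤ R := by
    intro e
    by_cases he : e ∈ E0
    · obtain ⟨R, hR⟩ := h.rho.coc e.1 e.2 (h.adj e he) o r
      exact ⟨R, fun _ => hR⟩
    · exact ⟨0, fun h => absurd h he⟩
  choose R hR using hc
  obtain ⟨M, hM⟩ := (h.fin.image R).bddAbove
  refine ⟨M, fun a b k hk x hx => ?_⟩
  have hab : T.Adj a b := by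
    have := h.act k⁻¹ _ _ (h.adj _ hk)
    rwa [inv_smul_smul, inv_smul_smul] at this
  rw [← h.rho.inv a b hab k x] at hx
  obtain ⟨g, hg, hgx⟩ := hR (k • a, k • b) hk (k • x) hx
  rw [mem_St] at hg
  exact ⟨g, hg.1, hg.2, hgx.trans (hM ⟨_, hk, rfl⟩)⟩

lemma Dat.loc_fin (h : Dat G T o D0 v0 ρ E0 C) (r : ℝ) :
    {e : V × V | (∃ k : G, (k • e.1, k • e.2) ∈ E0) ∧ ρ e.1 e.2 o ≤ r}.Finite := by
  have := h.geo.isom
  obtain ⟨R, hR⟩ := h.unif r
  refine (((finite_short h.geo o R).prod h.fin).image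
    (fun z : G × (V × V) => z.1⁻¹ • z.2)).subset ?_
  rintro e ⟨⟨k, hk⟩, he⟩
  obtain ⟨g, h1, h2, h3⟩ := hR e.1 e.2 k hk o he
  refine ⟨(g * k, (k • e.1, k • e.2)), ⟨?_, hk⟩, ?_⟩
  · show dist o ((g * k) • o) ≤ R
    rw [dist_comm, mul_smul]; exact h3
  · show (g * k)⁻¹ • ((k • e.1, k • e.2) : V × V) = e
    rw [inv_smul_eq_iff, mul_smul]
    exact Prod.ext h1.symm h2.symm

/-- points near an edge at `v` are near the orbit of the stabiliser of `v` -/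
lemma Dat.near (h : Dat G T o D0 v0 ρ E0 C) (v : V) (r : ℝ) : ∃ R : ℝ, ∀ a b : V, ∀ x : X,
    (a = v ∨ b = v) → (∃ k : G, (k • a, k • b) ∈ E0) → ρ a b x ≤ r →
    ∃ s ∈ MulAction.stabilizer G v, dist x (s • o) ≤ R := by
  classical
  have := h.geo.isom
  obtain ⟨R, hR⟩ := h.unif r
  have ht : ∀ w : V, ∃ t : G, (∃ t : G, t • v = w) → t • v = w := by
    intro w
    by_cases hw : ∃ t : G, t • v = w
    · obtain ⟨t, ht⟩ := hw
      exact ⟨t, fun _ => ht⟩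
    · exact ⟨1, fun h => absurd h hw⟩
  choose t ht using ht
  obtain ⟨M, hM⟩ := (h.fin.image (fun e => dist (t e.1 • o) o)).bddAbove
  obtain ⟨M', hM'⟩ := (h.fin.image (fun e => dist (t e.2 • o) o)).bddAbove
  refine ⟨R + max M M', fun a b x hv ⟨k, hk⟩ hx => ?_⟩
  obtain ⟨g, h1, h2, h3⟩ := hR a b k hk x hx
  have key : ∀ w : V, w = k • v → g • w = w → dist (t w • o) o ≤ max M M' →
      ∃ s ∈ MulAction.stabilizer G v, dist x (s • o) ≤ R + max M M' := by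
    intro w hw hgw hd
    have h4 := ht w ⟨k, hw.symm⟩
    refine ⟨(g * k)⁻¹ * t w, ?_, ?_⟩
    · rw [MulAction.mem_stabilizer_iff, mul_smul, h4, inv_smul_eq_iff, mul_smul, ← hw, hgw]
    · rw [← dist_smul (g * k), mul_smul, mul_smul _ _ o, smul_inv_smul]
      have := dist_triangle_right (g • k • x) (t w • o) o
      linarith
  rcases hv with hv | hv
  · subst hv
    exact key _ rfl h1 ((hM ⟨_, hk, rfl⟩).trans (le_max_left _ _))
  · subst hv
    exact key _ rfl h2 ((hM' ⟨_, hk, rfl⟩).trans (le_max_right _ _))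

lemma Dat.near0 (h : Dat G T o D0 v0 ρ E0 C) (v : V) : ∃ R : ℝ, ∀ (x : X) (g : G),
    dist x (g • o) ≤ D0 → g • v0 = v → ∃ s ∈ MulAction.stabilizer G v, dist x (s • o) ≤ R := by
  have := h.geo.isom
  by_cases hv : ∃ t : G, t • v0 = v
  · obtain ⟨t, ht⟩ := hv
    refine ⟨D0 + dist o (t⁻¹ • o), fun x g h1 h2 => ⟨g * t⁻¹, ?_, ?_⟩⟩
    · rw [MulAction.mem_stabilizer_iff, mul_smul, ← ht, inv_smul_smul, h2, ht]
    · have := dist_triangle x (g • o) ((g * t⁻¹) • o)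
      rw [mul_smul, dist_smul] at this
      rw [mul_smul]
      linarith
  · exact ⟨0, fun x g _ h2 => absurd ⟨g, h2⟩ hv⟩

lemma Dat.side (h : Dat G T o D0 v0 ρ E0 C) {a b : V} (hab : T.Adj a b) (x : X) :
    Sd G T o D0 v0 a b x ∨ Sd G T o D0 v0 b a x := by
  obtain ⟨g, hg⟩ := h.cov x
  have h1 := adj_pm h.tree hab (g • v0)
  rw [D_comm b, D_comm a] at h1
  rcases h1 with h1 | h1
  · exact Or.inr ⟨g, hg, by omega⟩
  · exact Or.inl ⟨g, hg, by omega⟩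

lemma Dat.side_smul (h : Dat G T o D0 v0 ρ E0 C) (k : G) {a b : V} {x : X}
    (hs : Sd G T o D0 v0 a b x) : Sd G T o D0 v0 (k • a) (k • b) (k • x) := by
  have := h.geo.isom
  obtain ⟨g, h1, h2⟩ := hs
  refine ⟨k * g, ?_, ?_⟩
  · rw [mul_smul, dist_smul]; exact h1
  · rw [mul_smul, D_smul h.tree h.act, D_smul h.tree h.act]; exact h2

lemma Dat.ins_smul (h : Dat G T o D0 v0 ρ E0 C) (k : G) {a b : V} (hab : T.Adj a b) {x : X}
    (hs : Ins G ρ E0 C a b x) : Ins G ρ E0 C (k • a) (k • b) (k • x) := by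
  obtain ⟨⟨g, hg⟩, h2⟩ := hs
  refine ⟨⟨g * k⁻¹, ?_⟩, ?_⟩
  · rw [mul_smul, mul_smul, inv_smul_smul, inv_smul_smul]; exact hg
  · rw [h.rho.inv a b hab]; exact h2

/-- not both sides -/
lemma Dat.one_side (h : Dat G T o D0 v0 ρ E0 C) {a b : V} (hab : T.Adj a b) {x y : X}
    (hxy : dist x y ≤ 1) (h1 : Sd G T o D0 v0 b a x) (h2 : Sd G T o D0 v0 a b y)
    (h3 : ¬ Ins G ρ E0 C a b x ∨ ¬ Ins G ρ E0 C a b y) : False := by
  obtain ⟨e1, e2⟩ := h.cross a b hab x y hxy h1 h2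
  rcases h3 with h3 | h3
  · exact h3 e1
  · exact h3 e2

end Pool.Agent.V7H57.FL
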