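import Pool.Agent.V7H57.FL.Order

/-!
# Limit flats, flats near convex sets and the final theorem
-/

set_option autoImplicit false

open Metric Set Filter Topology
open Pool.Agent.TH60.FP Pool.Agent.TH60.FP.Strip Pool.Agent.Y34.HB Pool.Agent.Y34.EL
open Pool.Agent.T6.H46.RR Pool.Agent.T6.H67.TA Pool.Agent.T6.H46.RC Pool.Agent.V7H57.RK

namespace Pool.Agent.V7H57.FL

variable {X : Type} [MetricSpace X] {G : Type} [Group G] [MulAction G X]

/-- the closure of the set of the translates of a flat is a closed invariant family of flats -/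
lemma fam_closure (hG : Geo X G) {k : ℕ} {F : E k → X} (hF : Isometry F) :
    Fam G (closure {f : E k → X | ∃ (g : G) (p : E k), f = fun z => g • F (z + p)}) := by
  have := hG.isom
  refine ⟨?_, isClosed_closure, ?_, ?_⟩
  · have hcl : IsClosed {f : E k → X | ∀ z w, dist (f z) (f w) = dist z w} := by
      have e : {f : E k → X | ∀ z w, dist (f z) (f w) = dist z w} =
          ⋂ z, ⋂ w, {f : E k → X | dist (f z) (f w) = dist z w} := by
        ext f; simp
      rw [e]
      refine isClosed_iInter fun z => isClosed_iInter fun w => ?_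
      exact isClosed_eq ((continuous_apply z).dist (continuous_apply w)) continuous_const
    have hsub : closure {f : E k → X | ∃ (g : G) (p : E k), f = fun z => g • F (z + p)} ⊆
        {f : E k → X | ∀ z w, dist (f z) (f w) = dist z w} := by
      refine closure_minimal ?_ hcl
      rintro _ ⟨g, p, rfl⟩ z w
      show dist (g • F (z + p)) (g • F (w + p)) = dist z w
      rw [dist_smul, hF.dist_eq, dist_add_right]
    intro f hf
    exact Isometry.of_dist_eq (hsub hf)
  · intro f hf g
    have hmaps : MapsTo (fun f : E k → X => fun z => g • f z)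
        {f : E k → X | ∃ (g : G) (p : E k), f = fun z => g • F (z + p)}
        {f : E k → X | ∃ (g : G) (p : E k), f = fun z => g • F (z + p)} := by
      rintro _ ⟨g', p, rfl⟩
      exact ⟨g * g', p, by funext z; rw [mul_smul]⟩
    have hcont : Continuous (fun f : E k → X => fun z => g • f z) :=
      continuous_pi fun z => (continuous_apply z).const_smul g
    exact hmaps.closure hcont hf
  · intro f hf a
    have hmaps : MapsTo (fun f : E k → X => fun z => f (a + z))
        {f : E k → X | ∃ (g : G) (p : E k), f = fun z => g • F (z + p)}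
        {f : E k → X | ∃ (g : G) (p : E k), f = fun z => g • F (z + p)} := by
      rintro _ ⟨g', p, rfl⟩
      refine ⟨g', a + p, ?_⟩
      funext z
      show g' • F (a + z + p) = g' • F (z + (a + p))
      congr 2; abel
    have hcont : Continuous (fun f : E k → X => fun z => f (a + z)) :=
      continuous_pi fun z => continuous_apply (a + z)
    exact hmaps.closure hcont hf

/-- a flat at bounded distance from a closed convex set has a parallel flat in this set -/
lemma proj_flat (hX : CN X) [ProperSpace X] {B : Set X} (hne : B.Nonempty) (hcl : IsClosed B)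
    (hcv : ∀ p ∈ B, ∀ q ∈ B, ∀ m, dist p m + dist m q = dist p q → m ∈ B) {k : ℕ}
    {f : E k → X} (hf : Isometry f) {R : ℝ} (hR : ∀ z, infDist (f z) B ≤ R) :
    ∃ p : E k → X, Isometry p ∧ (∀ z, p z ∈ B) ∧ ∀ z w, dist (f z) (p z) = dist (f w) (p w) := by
  have hmB : ∀ {x y m : X}, x ∈ B → y ∈ B → Mid x y m → m ∈ B := by
    intro x y m hx hy hm
    refine hcv x hx y hy m ?_
    have l1 := hm.left
    have l2 := hm.symm.left
    rw [dist_comm y x] at l2
    have q1 : dist x m ≤ dist x y / 2 := by
      refine (pow_le_pow_iff_left₀ dist_nonneg (by positivity) two_ne_zero).1 ?_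
      linarith
    have q2 : dist y m ≤ dist x y / 2 := by
      refine (pow_le_pow_iff_left₀ dist_nonneg (by positivity) two_ne_zero).1 ?_
      linarith
    rw [dist_comm y m] at q2
    have := dist_triangle x m y
    linarith
  have hfm : ∀ z w : E k, Mid (f z) (f w) (f (midpoint ℝ z w)) := by
    intro z w x
    rw [hf.dist_eq]
    exact flat_cn hX hf x z w
  choose p hp hpd using fun z => hcl.exists_infDist_eq_dist hne (f z)
  have hmid : ∀ z w m, Mid (p z) (p w) m →
      dist (f (midpoint ℝ z w)) m ≤ (infDist (f z) B + infDist (f w) B) / 2 := by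
    intro z w m hm
    have := Mid.lip hX (hfm z w) hm
    rw [hpd, hpd]
    exact this
  have hcm : ∀ z w : E k, infDist (f (midpoint ℝ z w)) B ≤
      (infDist (f z) B + infDist (f w) B) / 2 := by
    intro z w
    obtain ⟨m, hm⟩ := hX (p z) (p w)
    exact (infDist_le_dist_of_mem (hmB (hp z) (hp w) hm)).trans (hmid z w m hm)
  have hconst : ∀ z w : E k, infDist (f z) B = infDist (f w) B := by
    intro z w
    apply le_antisymm <;>
    exact const_of_mid (fun z => infDist (f z) B) (fun _ => infDist_nonneg) R hR hcm _ _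
  set c := infDist (f 0) B with hc
  have hc' : ∀ z, infDist (f z) B = c := fun z => hconst z 0
  have hpc : ∀ z, dist (f z) (p z) = c := fun z => by rw [← hpd, hc']
  -- closest points are unique
  have huniq : ∀ (z : E k) (m : X), m ∈ B → dist (f z) m ≤ c → m = p z := by
    intro z m hm hd
    obtain ⟨m', hm'⟩ := hX m (p z)
    have h1 := hm' (f z)
    have h2 : c ≤ dist (f z) m' := by
      rw [← hc' z]; exact infDist_le_dist_of_mem (hmB hm (hp z) hm')
    have hc0 : 0 ≤ c := infDist_nonneg
    rw [hpc z] at h1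
    have h3 : c ^ 2 ≤ dist (f z) m' ^ 2 := pow_le_pow_left₀ hc0 h2 2
    have h4 : dist (f z) m ^ 2 ≤ c ^ 2 := pow_le_pow_left₀ dist_nonneg hd 2
    have h5 : dist m (p z) ^ 2 ≤ 0 := by linarith
    have h6 : dist m (p z) = 0 := by
      have := sq_nonneg (dist m (p z))
      exact pow_eq_zero_iff two_ne_zero |>.1 (le_antisymm h5 this)
    exact dist_eq_zero.1 h6
  have hpm : ∀ z w : E k, Mid (p z) (p w) (p (midpoint ℝ z w)) := by
    intro z w
    obtain ⟨m, hm⟩ := hX (p z) (p w)
    have h1 := hmid z w m hm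
    rw [hc', hc'] at h1
    have h2 := huniq (midpoint ℝ z w) m (hmB (hp z) (hp w) hm) (by linarith)
    rw [← h2]; exact hm
  have hhalf : ∀ z w : E k, dist (p z) (p w) = 2 * dist (p z) (p (midpoint ℝ z w)) := by
    intro z w
    have l1 := (hpm z w).left
    have l2 := (hpm z w).symm.left
    rw [dist_comm (p w) (p z)] at l2
    have q1 : dist (p z) (p (midpoint ℝ z w)) ≤ dist (p z) (p w) / 2 := by
      refine (pow_le_pow_iff_left₀ dist_nonneg (by positivity) two_ne_zero).1 ?_
      linarith
    have q2 : dist (p w) (p (midpoint ℝ z w)) ≤ dist (p z) (p w) / 2 := by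
      refine (pow_le_pow_iff_left₀ dist_nonneg (by positivity) two_ne_zero).1 ?_
      linarith
    have := dist_triangle_right (p z) (p w) (p (midpoint ℝ z w))
    linarith
  have hpow : ∀ (z u : E k) (n : ℕ),
      dist (p z) (p (z + (2 : ℝ) ^ n • u)) = 2 ^ n * dist (p z) (p (z + u)) := by
    intro z u n
    induction n with
    | zero => simp
    | succ n ih =>
      have h3 : midpoint ℝ z (z + (2 : ℝ) ^ (n + 1) • u) = z + (2 : ℝ) ^ n • u := by
        rw [midpoint_eq_smul_add, pow_succ, invOf_eq_inv]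
        module
      rw [hhalf, h3, ih, pow_succ]
      ring
  have hbd : ∀ (z u : E k) (n : ℕ), |(2 : ℝ) ^ n * dist (p z) (p (z + u)) - 2 ^ n * ‖u‖| ≤
      2 * c := by
    intro z u n
    rw [← hpow]
    have h1 : dist (f z) (f (z + (2 : ℝ) ^ n • u)) = 2 ^ n * ‖u‖ := by
      rw [hf.dist_eq, dist_self_add_right, norm_smul, norm_pow, Real.norm_ofNat]
    rw [← h1, abs_le]
    have h2 := dist_triangle4 (p z) (f z) (f (z + (2 : ℝ) ^ n • u)) (p (z + (2 : ℝ) ^ n • u))
    have h3 := dist_triangle4 (f z) (p z) (p (z + (2 : ℝ) ^ n • u)) (f (z + (2 : ℝ) ^ n • u))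
    rw [dist_comm (p z) (f z), hpc, hpc] at h2
    rw [hpc, dist_comm (p (z + (2 : ℝ) ^ n • u)) (f (z + (2 : ℝ) ^ n • u)), hpc] at h3
    constructor <;> linarith
  have hiso : ∀ z u : E k, dist (p z) (p (z + u)) = ‖u‖ := by
    intro z u
    by_contra hne'
    have hpos : 0 < |dist (p z) (p (z + u)) - ‖u‖| := abs_pos.2 (sub_ne_zero.2 hne')
    obtain ⟨n, hn⟩ := pow_unbounded_of_one_lt ((2 * c + 1) / |dist (p z) (p (z + u)) - ‖u‖|)
      (one_lt_two (α := ℝ))
    rw [div_lt_iff₀ hpos] at hn
    have h1 := hbd z u n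
    rw [← mul_sub, abs_mul, abs_of_pos (by positivity : (0 : ℝ) < 2 ^ n)] at h1
    linarith
  refine ⟨p, Isometry.of_dist_eq fun z w => ?_, hp, fun z w => by rw [hpc, hpc]⟩
  have := hiso z (w - z)
  rw [add_sub_cancel] at this
  rw [this, dist_comm, dist_eq_norm]

variable {V : Type} {T : SimpleGraph V} (hT : T.IsTree) [MulAction G V]
  (hact : ∀ (g : G) (u v : V), T.Adj u v → T.Adj (g • u) (g • v))

include hT hact in
theorem vertex_flats (hG : Geo X G) (o : X) (m : ℕ)
    (hVA : ∀ u v : V, (m : ℤ) ≤ D T u v → ∃ A' ≤ St G u v, A'.relIndex (St G u v) ≠ 0 ∧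
      A'.FG ∧ ∀ a ∈ A', ∀ b ∈ A', a * b = b * a)
    (hE : m ≤ 1 ∨ ∀ a b : V, T.Adj a b → ∃ B : Set X, CC (St G a b) B)
    {k : ℕ} (hk : 2 ≤ k) {F : E k → X} (hF : Isometry F) :
    (∃ φ : Multiplicative (ℤ × ℤ) →* G, Function.Injective φ) ∨
    ∃ f ∈ closure {f : E k → X | ∃ (g : G) (p : E k), f = fun z => g • F (z + p)},
      ∃ (v : V) (R : ℝ), Isometry f ∧
        (∀ z, ∃ s ∈ MulAction.stabilizer G v, dist (f z) (s • o) ≤ R) ∧
        ∀ B : Set X, CC (MulAction.stabilizer G v) B →
          ∃ p : E k → X, Isometry p ∧ (∀ z, p z ∈ B) ∧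
            ∀ z w, dist (f z) (p z) = dist (f w) (p w) := by
  have := hG.isom
  have := hG.proper
  have hE' : ∀ a b : V, T.Adj a b → ∃ B : Set X, CC (St G a b) B := by
    rcases hE with h | h
    · intro a b hab
      obtain ⟨A', h1, h2, h3, h4⟩ := hVA a b (by rw [adj_D hab]; exact_mod_cast h)
      obtain ⟨B', hB'⟩ := cc_abelian hG A' h3 h4 o
      exact cc_fin hG h1 h2 hB'
    · exact h
  have : Nonempty V := hT.connected.nonempty
  obtain ⟨D0, ρ, E0, C, h⟩ := exists_dat hG hT hact hE' o (Classical.arbitrary V)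
  have hL := fam_closure hG hF
  set L := closure {f : E k → X | ∃ (g : G) (p : E k), f = fun z => g • F (z + p)} with hLd
  have hFL : F ∈ L := subset_closure ⟨1, 0, by funext z; rw [one_smul, add_zero]⟩
  by_cases hN : Far (V := V) G o L
  · left
    exact h.main hk hL ⟨F, hFL⟩ hN m fun u v huv => by
      obtain ⟨A', -, h2, h3, h4⟩ := hVA u v huv
      exact ⟨A', h2, h3, h4⟩
  · right
    unfold Far at hN
    push Not at hN
    obtain ⟨f, hf, v, R, hR⟩ := hN
    have hfi := hL.isom f hf
    refine ⟨f, hf, v, R, hfi, hR, fun B hB => ?_⟩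
    obtain ⟨b, hb⟩ := hB.ne
    refine proj_flat hG.cn hB.ne hB.closed hB.conv hfi (R := R + dist o b) fun z => ?_
    obtain ⟨s, hs, hsz⟩ := hR z
    refine (infDist_le_dist_of_mem (hB.inv s hs b hb)).trans ?_
    have := dist_triangle (f z) (s • o) (s • b)
    rw [dist_smul] at this
    linarith

end Pool.Agent.V7H57.FL
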