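import Pool.Agent.V7H57.FL.Plane

/-!
# Flats which are not near the orbit of a vertex group cross edges everywhere
-/

set_option autoImplicit false

open Metric Set Filter Topology
open Pool.Agent.TH60.FP Pool.Agent.TH60.FP.Strip Pool.Agent.Y34.HB Pool.Agent.Y34.EL
open Pool.Agent.T6.H46.RR Pool.Agent.T6.H67.TA Pool.Agent.T6.H46.RC Pool.Agent.V7H57.RK

namespace Pool.Agent.V7H57.FL

variable {X : Type} [MetricSpace X] {G : Type} [Group G] [MulAction G X]
variable {V : Type} {T : SimpleGraph V} [MulAction G V]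
variable {o : X} {D0 : ℝ} {v0 : V} {ρ : V → V → X → ℝ} {E0 : Set (V × V)} {C : ℝ} {k : ℕ}

/-- no flat of the family is in a neighbourhood of the orbit of a vertex stabiliser -/
def Far (G : Type) [Group G] [MulAction G V] [MulAction G X] (o : X) (L : Set (E k → X)) :
    Prop := ∀ f ∈ L, ∀ (v : V) (R : ℝ), ∃ z, ∀ s ∈ MulAction.stabilizer G v, R < dist (f z) (s • o)

lemma Dat.cont (h : Dat G T o D0 v0 ρ E0 C) (a b : V) : Continuous (ρ a b) := by
  have : LipschitzWith 1 (ρ a b) := LipschitzWith.of_le_add_mul 1 fun x y => by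
    rw [NNReal.coe_one, one_mul]; exact h.rho.lip a b x y
  exact this.continuous

/-- limits -/
lemma exists_lim (hG : Geo X G) {L : Set (E k → X)} (hL : Fam G L) {R : ℝ} {F : ℕ → E k → X}
    (hF : ∀ n, F n ∈ L) (h0 : ∀ n, dist (F n 0) o ≤ R) : ∃ f ∈ L, ∀ z,
      Tendsto (fun n => F n z) (hyperfilter ℕ : Filter ℕ) (𝓝 (f z)) := by
  have := hG.proper
  obtain ⟨f, -, hf, -⟩ := t_lim X k (closedBall o R) (isCompact_closedBall o R) F
    (fun n => hL.isom _ (hF n)) (fun n => mem_closedBall.2 (h0 n))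
  refine ⟨f, hL.closed.mem_of_tendsto hf (Eventually.of_forall hF), fun z => ?_⟩
  exact (tendsto_pi_nhds.1 hf) z

lemma ev_large (y : ℝ) : ∀ᶠ n : ℕ in (hyperfilter ℕ : Filter ℕ), y ≤ (n : ℝ) := by
  have h2 : ∀ᶠ n : ℕ in atTop, y ≤ (n : ℝ) := by
    filter_upwards [eventually_ge_atTop ⌈y⌉₊] with n hn
    exact (Nat.le_ceil _).trans (by exact_mod_cast hn)
  exact Nat.hyperfilter_le_atTop h2

/-- no large ball of a flat is near an edge -/
lemma Dat.thin (h : Dat G T o D0 v0 ρ E0 C) {L : Set (E k → X)} (hL : Fam G L)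
    (hN : Far (V := V) G o L) : ∃ R : ℝ, 0 ≤ R ∧ ∀ f ∈ L, ∀ (p : E k) (a b : V), T.Adj a b →
      ∃ z, dist z p ≤ R ∧ ¬ Ins G ρ E0 C a b (f z) := by
  classical
  have := h.geo.isom
  by_contra hc
  push Not at hc
  have hc' : ∀ n : ℕ, ∃ f ∈ L, ∃ (p : E k) (a b : V), T.Adj a b ∧
      ∀ z, dist z p ≤ n → Ins G ρ E0 C a b (f z) := fun n => hc n (Nat.cast_nonneg n)
  choose f hf p a b hab hins using hc'
  obtain ⟨R0, hR0⟩ := h.unif C
  have h1 : ∀ n, Ins G ρ E0 C (a n) (b n) (f n (p n)) := fun n =>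
    hins n (p n) (by rw [dist_self]; exact Nat.cast_nonneg n)
  choose κ hκ using fun n => (h1 n).1
  have h2 : ∀ n, ∃ g : G, g • κ n • a n = κ n • a n ∧ g • κ n • b n = κ n • b n ∧
      dist (g • κ n • f n (p n)) o ≤ R0 := fun n => hR0 _ _ _ (hκ n) _ (h1 n).2
  choose g hg1 hg2 hg3 using h2
  obtain ⟨φ, hφ, hlim⟩ := exists_lim (o := o) (R := R0) h.geo hL
    (F := fun n z => (g n * κ n) • f n (p n + z))
    (fun n => hL.smul _ (hL.trans _ (hf n) (p n)) (g n * κ n))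
    (fun n => by
      show dist ((g n * κ n) • f n (p n + 0)) o ≤ R0
      rw [add_zero, mul_smul]; exact hg3 n)
  obtain ⟨ε, hε, hev⟩ := (Ultrafilter.eventually_exists_mem_iff (f := hyperfilter ℕ)
    (P := fun e n => ((κ n • a n, κ n • b n) : V × V) = e) h.fin).1
    (Eventually.of_forall fun n => ⟨_, hκ n, rfl⟩)
  obtain ⟨R, hR⟩ := h.near ε.1 C
  obtain ⟨z, hz⟩ := hN φ hφ ε.1 R
  have h3 : ρ ε.1 ε.2 (φ z) ≤ C := by
    refine le_of_tendsto (((h.cont ε.1 ε.2).tendsto _).comp (hlim z)) ?_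
    filter_upwards [hev, ev_large ‖z‖] with n hn hn2
    have h4 := hins n (p n + z) (by rw [dist_self_add_left]; exact hn2)
    have h5 := (h.ins_smul (g n * κ n) (hab n) h4).2
    rw [mul_smul, mul_smul, hg1, hg2] at h5
    rw [← hn]
    exact h5
  obtain ⟨s, hs, hs2⟩ := hR ε.1 ε.2 (φ z) (Or.inl rfl) ⟨1, by rw [one_smul, one_smul]; exact hε⟩ h3
  exact absurd (hz s hs) (not_lt.2 hs2)

/-- the edges near a point -/
lemma Dat.fin_at (h : Dat G T o D0 v0 ρ E0 C) (x : X) (r : ℝ) :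
    {e : V × V | (∃ k : G, (k • e.1, k • e.2) ∈ E0) ∧ ρ e.1 e.2 x ≤ r}.Finite := by
  refine (h.loc_fin (r + dist o x)).subset ?_
  rintro e ⟨h1, h2⟩
  refine ⟨h1, ?_⟩
  have := h.rho.lip e.1 e.2 o x
  linarith

/-- some edge separates the flat -/
lemma Dat.all_sep (h : Dat G T o D0 v0 ρ E0 C) {L : Set (E k → X)} (hL : Fam G L)
    (hN : Far (V := V) G o L) {f : E k → X} (hf : f ∈ L) : ∃ a b : V, T.Adj a b ∧
      ∃ z1 z2 : E k, ¬ Ins G ρ E0 C a b (f z1) ∧ ¬ Ins G ρ E0 C a b (f z2) ∧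
        Sd G T o D0 v0 b a (f z1) ∧ Sd G T o D0 v0 a b (f z2) := by
  classical
  by_contra hno
  push Not at hno
  obtain ⟨R, hR0, hthin⟩ := h.thin hL hN
  have contra : ∀ (a b : V), T.Adj a b → ∀ x : X, ¬ Ins G ρ E0 C a b x →
      Sd G T o D0 v0 b a x → Sd G T o D0 v0 a b x → False := fun a b hab x e1 e2 e3 =>
    h.one_side hab (by rw [dist_self]; exact zero_le_one) e2 e3 (Or.inl e1)
  have sy : ∀ {a b : V} {x : X}, ¬ Ins G ρ E0 C a b x → ¬ Ins G ρ E0 C b a x :=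
    fun hx hi => hx (hi.symm h)
  let Or' : V → V → Prop := fun a b => ∀ z, ¬ Ins G ρ E0 C a b (f z) → Sd G T o D0 v0 a b (f z)
  have total : ∀ a b, T.Adj a b → Or' a b ∨ Or' b a := by
    intro a b hab
    by_contra hc
    obtain ⟨c1, c2⟩ := not_or.1 hc
    obtain ⟨z, hz⟩ := not_forall.1 c1
    obtain ⟨z', hz'⟩ := not_forall.1 c2
    obtain ⟨i1, i2⟩ := Classical.not_imp.1 hz
    obtain ⟨j1, j2⟩ := Classical.not_imp.1 hz'
    have s1 : Sd G T o D0 v0 b a (f z) := (h.side hab (f z)).resolve_left i2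
    have s2 : Sd G T o D0 v0 a b (f z') := (h.side hab (f z')).resolve_right j2
    exact hno a b hab z z' i1 (sy j1) s1 s2
  have excl : ∀ a b, T.Adj a b → Or' a b → Or' b a → False := by
    intro a b hab h1 h2
    obtain ⟨z, -, hz⟩ := hthin f hf 0 a b hab
    exact contra a b hab _ hz (h2 z (sy hz)) (h1 z hz)
  obtain ⟨g0, hg0⟩ := h.cov (f 0)
  set w0 := g0 • v0 with hw0
  obtain ⟨B, hB⟩ := ((h.fin_at (f 0) C).image (fun e => D T w0 e.1)).bddAbove
  let P : V → Prop := fun v => ∀ a, T.Adj a v → D T w0 a + 1 = D T w0 v → Or' a v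
  have bound : ∀ v, P v → D T w0 v ≤ max (B + 1) 0 := by
    intro v hv
    rcases eq_or_ne v w0 with h0 | h0
    · rw [h0, D_self]; exact le_max_right _ _
    obtain ⟨a, ha1, ha2⟩ := exists_closer h.tree h0
    have e1 : D T w0 a + 1 = D T w0 v := by rw [D_comm w0 a, D_comm w0 v]; omega
    have h1 := hv a ha1.symm e1
    have h2 : Ins G ρ E0 C a v (f 0) := by
      by_contra hi
      exact contra a v ha1.symm _ hi ⟨g0, hg0, by rw [← hw0]; omega⟩ (h1 0 hi)
    have h3 : D T w0 a ≤ B := hB ⟨(a, v), h2, rfl⟩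
    exact le_max_of_le_left (by omega)
  obtain ⟨v, hv, hmax⟩ : ∃ v, P v ∧ ∀ b, T.Adj v b → D T w0 b = D T w0 v + 1 → ¬ Or' v b := by
    by_contra hc
    push Not at hc
    have hall : ∀ n : ℕ, ∃ v, P v ∧ D T w0 v = n := by
      intro n
      induction n with
      | zero =>
        refine ⟨w0, fun a _ ha => ?_, by rw [D_self]; rfl⟩
        rw [D_self] at ha
        have := D_nonneg (T := T) w0 a
        omega
      | succ n ih =>
        obtain ⟨v, hv, hvn⟩ := ih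
        obtain ⟨b, hb1, hb2, hb3⟩ := hc v hv
        refine ⟨b, fun a ha hab => ?_, by rw [hb2, hvn]; push_cast; ring⟩
        have : a = v := closer_unique h.tree (x := w0) ha.symm
          (by rw [D_comm a w0, D_comm b w0]; omega) hb1.symm
          (by rw [D_comm v w0, D_comm b w0]; omega)
        rw [this]; exact hb3
    obtain ⟨v, hv, hvn⟩ := hall ((max (B + 1) 0).toNat + 1)
    have h1 := bound v hv
    rw [hvn] at h1
    push_cast at h1
    have h2 : (0 : ℤ) ≤ max (B + 1) 0 := le_max_right _ _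
    rw [Int.toNat_of_nonneg h2] at h1
    omega
  have hin : ∀ b, T.Adj b v → Or' b v := by
    intro b hb
    have h1 := adj_pm h.tree hb w0
    rw [D_comm v, D_comm b] at h1
    rcases h1 with h1 | h1
    · exact hv b hb (by omega)
    · exact (total v b hb.symm).resolve_left (hmax b hb.symm (by omega))
  obtain ⟨R1, hR1⟩ := h.near v C
  obtain ⟨R2, hR2⟩ := h.near0 v
  obtain ⟨z, hz⟩ := hN f hf v (max R1 R2)
  obtain ⟨g, hg⟩ := h.cov (f z)
  rcases eq_or_ne (g • v0) v with h0 | h0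
  · obtain ⟨s, hs, hs2⟩ := hR2 (f z) g hg h0
    have := hz s hs
    have := le_max_right R1 R2
    linarith
  · obtain ⟨b, hb1, hb2⟩ := exists_closer h.tree h0.symm
    have h1 : Ins G ρ E0 C b v (f z) := by
      by_contra hi
      exact contra b v hb1.symm _ hi ⟨g, hg, by rw [D_comm _ b, D_comm _ v]; omega⟩
        (hin b hb1.symm z hi)
    obtain ⟨s, hs, hs2⟩ := hR1 b v (f z) (Or.inr rfl) h1.1 h1.2
    have := hz s hs
    have := le_max_left R1 R2
    linarith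

lemma Dat.ev_side (h : Dat G T o D0 v0 ρ E0 C) {a b : V} (hab : T.Adj a b) {x : ℕ → X} {y : X}
    (hx : Tendsto x (hyperfilter ℕ : Filter ℕ) (𝓝 y)) (h1 : ¬ Ins G ρ E0 C a b y)
    (h2 : Sd G T o D0 v0 a b y) : ∀ᶠ n in (hyperfilter ℕ : Filter ℕ),
      ¬ Ins G ρ E0 C a b (x n) ∧ Sd G T o D0 v0 a b (x n) := by
  have e1 : ∀ᶠ n in (hyperfilter ℕ : Filter ℕ), ¬ Ins G ρ E0 C a b (x n) := by
    by_cases hk : ∃ g : G, (g • a, g • b) ∈ E0
    · have h3 : C < ρ a b y := by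
        by_contra hc
        exact h1 ⟨hk, not_lt.1 hc⟩
      filter_upwards [(((h.cont a b).tendsto _).comp hx).eventually (eventually_gt_nhds h3)]
        with n hn hi
      exact absurd hi.2 (not_le.2 hn)
    · exact Eventually.of_forall fun n hi => hk hi.1
  have e2 : ∀ᶠ n in (hyperfilter ℕ : Filter ℕ), dist (x n) y < 1 :=
    hx.eventually (ball_mem_nhds y one_pos)
  filter_upwards [e1, e2] with n hn1 hn2
  refine ⟨hn1, ?_⟩
  rcases h.side hab (x n) with hs | hs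
  · exact hs
  · exact (h.one_side hab hn2.le hs h2 (Or.inl hn1)).elim

/-- near every point of a flat of the family some edge separates the flat -/
lemma Dat.unif_sep (h : Dat G T o D0 v0 ρ E0 C) {L : Set (E k → X)} (hL : Fam G L)
    (hN : Far (V := V) G o L) : ∃ M : ℝ, 0 ≤ M ∧ ∀ f ∈ L, ∀ p : E k, ∃ a b : V, T.Adj a b ∧
      ∃ z1 z2 : E k, dist z1 p ≤ M ∧ dist z2 p ≤ M ∧ ¬ Ins G ρ E0 C a b (f z1) ∧
        ¬ Ins G ρ E0 C a b (f z2) ∧ Sd G T o D0 v0 b a (f z1) ∧ Sd G T o D0 v0 a b (f z2) := by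
  classical
  have := h.geo.isom
  by_contra hc
  push Not at hc
  have hc' : ∀ n : ℕ, ∃ f ∈ L, ∃ p : E k, ∀ a b : V, T.Adj a b → ∀ z1 z2 : E k,
      dist z1 p ≤ n → dist z2 p ≤ n → ¬ Ins G ρ E0 C a b (f z1) → ¬ Ins G ρ E0 C a b (f z2) →
        Sd G T o D0 v0 b a (f z1) → ¬ Sd G T o D0 v0 a b (f z2) :=
    fun n => hc n (Nat.cast_nonneg n)
  choose f hf p hp using hc'
  choose g hg using fun n => h.cov (f n (p n))
  obtain ⟨φ, hφ, hlim⟩ := exists_lim (o := o) (R := D0) h.geo hL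
    (F := fun n z => (g n)⁻¹ • f n (p n + z))
    (fun n => hL.smul _ (hL.trans _ (hf n) (p n)) (g n)⁻¹)
    (fun n => by
      show dist ((g n)⁻¹ • f n (p n + 0)) o ≤ D0
      rw [add_zero, ← dist_smul (g n), smul_inv_smul]; exact hg n)
  obtain ⟨a, b, hab, z1, z2, h1, h2, h3, h4⟩ := h.all_sep hL hN hφ
  have e1 := h.ev_side hab.symm (hlim z1) (fun hi => h1 (hi.symm h)) h3
  have e2 := h.ev_side hab (hlim z2) h2 h4
  obtain ⟨n, hn1, hn2, hn3, hn4⟩ :=
    (e1.and (e2.and ((ev_large ‖z1‖).and (ev_large ‖z2‖)))).exists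
  refine hp n (g n • a) (g n • b) (h.act _ _ _ hab) (p n + z1) (p n + z2)
    (by rw [dist_self_add_left]; exact hn3) (by rw [dist_self_add_left]; exact hn4) ?_ ?_ ?_ ?_
  · intro hi
    have := h.ins_smul (g n)⁻¹ (h.act _ _ _ hab) hi
    rw [inv_smul_smul, inv_smul_smul] at this
    exact hn1.1 (this.symm h)
  · intro hi
    have := h.ins_smul (g n)⁻¹ (h.act _ _ _ hab) hi
    rw [inv_smul_smul, inv_smul_smul] at this
    exact hn2.1 this
  · have := h.side_smul (g n) hn1.2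
    rwa [smul_inv_smul] at this
  · have := h.side_smul (g n) hn2.2
    rwa [smul_inv_smul] at this

end Pool.Agent.V7H57.FL
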