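import Pool.Agent.V7H57.FL.Lim
import Pool.Agent.V7H57.FL.Alg

/-!
# The edges which separate a flat
-/

set_option autoImplicit false

open Metric Set Filter Topology
open Pool.Agent.TH60.FP Pool.Agent.TH60.FP.Strip Pool.Agent.Y34.HB Pool.Agent.Y34.EL
open Pool.Agent.T6.H46.RR Pool.Agent.T6.H67.TA Pool.Agent.T6.H46.RC Pool.Agent.V7H57.RK

namespace Pool.Agent.V7H57.FL

section trees

variable {V : Type} {T : SimpleGraph V} (hT : T.IsTree)

include hT in
/-- the order of two edges is determined by the sides of three vertices -/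
lemma coherent {a b a' b' w1 w2 w3 : V} (h1 : T.Adj a b) (h2 : T.Adj a' b')
    (u1 : D T w1 a < D T w1 b) (u1' : D T w1 a' < D T w1 b')
    (u2 : D T w2 b < D T w2 a) (u2' : D T w2 a' < D T w2 b')
    (u3 : D T w3 b < D T w3 a) (u3' : D T w3 b' < D T w3 a') :
    D T a b' = D T b a' + 2 := by
  rcases edge_cases hT h1 h2 with h | h | h | h | h | h
  · rw [h.1, h.2] at u2'; omega
  · rw [h.1, h.2] at u1'; omega
  · exact h
  · exact (no_cross hT h1.symm h2 h u2 u2').elim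
  · exact (no_cross hT h1 h2 h u1 u1').elim
  · exact (no_cross hT h1.symm h2.symm h u3 u3').elim

include hT in
/-- the distances in a sequence of edges on a line -/
lemma chain_dist {a b : ℕ → V} (hab : ∀ j, T.Adj (a j) (b j))
    (hc : ∀ i j, i < j → D T (a i) (b j) = D T (b i) (a j) + 2) (i m : ℕ) :
    D T (a i) (b (i + m)) = D T (a i) (a (i + m)) + 1 ∧ (m : ℤ) + 1 ≤ D T (a i) (b (i + m)) := by
  induction m with
  | zero =>
    rw [Nat.add_zero, D_self, adj_D (hab i)]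
    exact ⟨rfl, le_rfl⟩
  | succ m ih =>
    obtain ⟨ih1, ih2⟩ := ih
    have e1 := hc i (i + (m + 1)) (by omega)
    have e2 := hc (i + m) (i + (m + 1)) (by omega)
    have f1 := adj_pm hT (hab i) (a (i + (m + 1)))
    have f2 := adj_pm hT (hab i) (b (i + (m + 1)))
    have f3 := adj_pm hT (hab (i + (m + 1))) (a i)
    have f4 := adj_pm hT (hab (i + (m + 1))) (b i)
    rw [D_comm (b (i + (m + 1))), D_comm (a (i + (m + 1)))] at f3
    rw [D_comm (b (i + (m + 1))), D_comm (a (i + (m + 1)))] at f4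
    have g2 := adj_pm hT (hab (i + m)) (b (i + (m + 1)))
    have g4 := adj_pm hT (hab (i + (m + 1))) (b (i + m))
    rw [D_comm (b (i + (m + 1))), D_comm (a (i + (m + 1)))] at g4
    have g5 := adj_pm hT (hab (i + m)) (a (i + (m + 1)))
    have g3 := adj_pm hT (hab (i + (m + 1))) (a (i + m))
    rw [D_comm (b (i + (m + 1))), D_comm (a (i + (m + 1)))] at g3
    have k1 := sep_edge hT (adj_D (hab (i + m))) (w := a i) (u := b (i + (m + 1))) ih1 (by omega)
    have k2 := D_nonneg (T := T) (b (i + m)) (a (i + (m + 1)))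
    constructor
    · omega
    · push_cast
      omega

end trees

variable {X : Type} [MetricSpace X] {G : Type} [Group G] [MulAction G X]
variable {V : Type} {T : SimpleGraph V} [MulAction G V]
variable {o : X} {D0 : ℝ} {v0 : V} {ρ : V → V → X → ℝ} {E0 : Set (V × V)} {C : ℝ} {k : ℕ}

/-- the types of the edges near `x`, seen from an orbit point near `x` -/
lemma Dat.type (h : Dat G T o D0 v0 ρ E0 C) {a b : V} (hab : T.Adj a b) {x : X} {r : ℝ} {g : G}
    (hg : dist x (g • o) ≤ D0) (hk : ∃ g : G, (g • a, g • b) ∈ E0) (hx : ρ a b x ≤ r) :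
    (g⁻¹ • a, g⁻¹ • b) ∈
      {e : V × V | (∃ k : G, (k • e.1, k • e.2) ∈ E0) ∧ ρ e.1 e.2 o ≤ r + D0} := by
  have := h.geo.isom
  obtain ⟨κ, hκ⟩ := hk
  refine ⟨⟨κ * g, ?_⟩, ?_⟩
  · show ((κ * g) • g⁻¹ • a, (κ * g) • g⁻¹ • b) ∈ E0
    rw [mul_smul, mul_smul, smul_inv_smul, smul_inv_smul]; exact hκ
  · show ρ (g⁻¹ • a) (g⁻¹ • b) o ≤ r + D0
    have h1 := h.rho.lip (g⁻¹ • a) (g⁻¹ • b) o (g⁻¹ • x)
    rw [h.rho.inv a b hab] at h1
    have h2 : dist o (g⁻¹ • x) = dist x (g • o) := by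
      rw [← dist_smul g, smul_inv_smul, dist_comm]
    linarith

/-- infinitely many elements of the same type -/
lemma inf_stab {β : Type} {K : Subgroup G} {Y : Set β} (hY : Y.Finite) (γ : ℕ → G) (τ : G → β)
    (hτ : ∀ t, τ (γ t) ∈ Y) (hK : ∀ g g', τ g = τ g' → g * g'⁻¹ ∈ K)
    (hfib : ∀ g, {t | γ t = g}.Finite) : (K : Set G).Infinite := by
  intro hfin
  have : Finite Y := hY
  obtain ⟨y, hy⟩ := Finite.exists_infinite_fiber (fun t : ℕ => (⟨τ (γ t), hτ t⟩ : Y))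
  obtain ⟨t0⟩ : Nonempty _ := hy.nonempty
  have hKf : Finite K := hfin
  obtain ⟨κ, hκ⟩ := Finite.exists_infinite_fiber
    (fun t : ((fun t : ℕ => (⟨τ (γ t), hτ t⟩ : Y)) ⁻¹' {y}) =>
      (⟨γ t * (γ t0)⁻¹, hK _ _ (by
        have h1 : (⟨τ (γ t), hτ t⟩ : Y) = y := t.2
        have h2 : (⟨τ (γ t0), hτ t0⟩ : Y) = y := t0.2
        exact congrArg Subtype.val (h1.trans h2.symm))⟩ : K))
  have h3 := hfib ((κ : G) * γ t0)
  have h4 : Finite ((fun t : ((fun t : ℕ => (⟨τ (γ t), hτ t⟩ : Y)) ⁻¹' {y}) =>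
      (⟨γ t * (γ t0)⁻¹, hK _ _ (by
        have h1 : (⟨τ (γ t), hτ t⟩ : Y) = y := t.2
        have h2 : (⟨τ (γ t0), hτ t0⟩ : Y) = y := t0.2
        exact congrArg Subtype.val (h1.trans h2.symm))⟩ : K)) ⁻¹' {κ}) := by
    have : Finite {t | γ t = (κ : G) * γ t0} := h3
    refine Finite.of_injective (β := {t | γ t = (κ : G) * γ t0}) (fun t => ⟨((t : _) : ℕ), ?_⟩) ?_
    · have h5 : γ ((t : _) : ℕ) * (γ t0)⁻¹ = κ := congrArg Subtype.val t.2
      show γ ((t : _) : ℕ) = (κ : G) * γ t0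
      rw [← h5]; group
    · intro s t hst
      have h6 := congrArg (fun z : {t | γ t = (κ : G) * γ t0} => (z : ℕ)) hst
      exact Subtype.ext (Subtype.ext h6)
  exact hκ.not_finite h4

/-- **Main step.** -/
theorem Dat.main (h : Dat G T o D0 v0 ρ E0 C) (hk : 2 ≤ k) {L : Set (E k → X)} (hL : Fam G L)
    (hne : L.Nonempty) (hN : Far (V := V) G o L) (m : ℕ)
    (hVA : ∀ u v : V, (m : ℤ) ≤ D T u v → ∃ A' : Subgroup G, A'.relIndex (St G u v) ≠ 0 ∧
      A'.FG ∧ ∀ a ∈ A', ∀ b ∈ A', a * b = b * a) :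
    ∃ φ : Multiplicative (ℤ × ℤ) →* G, Function.Injective φ := by
  classical
  have := h.geo.isom
  obtain ⟨f, hfL⟩ := hne
  have hf := hL.isom f hfL
  obtain ⟨M, hM, hsep⟩ := h.unif_sep hL hN
  -- the normal vector
  obtain ⟨a0, b0, hab0, z1, z2, c1, c2, c3, c4, c5, c6⟩ := hsep f hfL 0
  obtain ⟨n, hn, hs0⟩ := h.sep hab0 hf c1 c2 c3 c4 c5 c6
  have hall : ∀ p : E k, ∃ a b : V, T.Adj a b ∧ Sep G T o D0 v0 ρ E0 C f a b p n M := by
    intro p
    obtain ⟨a, b, hab, z1, z2, c1, c2, c3, c4, c5, c6⟩ := hsep f hfL p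
    obtain ⟨n', hn', hs'⟩ := h.sep hab hf c1 c2 c3 c4 c5 c6
    rcases h.par hab0 hab hn hn' hs0 hs' with e | e
    · exact ⟨a, b, hab, e ▸ hs'⟩
    · exact ⟨b, a, hab.symm, Sep.neg h (e ▸ hs')⟩
  set S : ℝ := 2 * M + 1 with hS
  choose a b hab hsab using fun j : ℕ => hall (((j : ℝ) * S) • n)
  have inn : ∀ s t : ℝ, inner ℝ n (s • n - t • n) = s - t := by
    intro s t
    rw [← sub_smul, real_inner_smul_right, real_inner_self_eq_norm_sq, hn]
    ring
  have hSpos : 0 < S := by linarith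
  have sy : ∀ {a b : V} {x : X}, ¬ Ins G ρ E0 C a b x → ¬ Ins G ρ E0 C b a x :=
    fun hx hi => hx (hi.symm h)
  -- the edges are on a line
  have hcoh : ∀ i j, i < j → D T (a i) (b j) = D T (b i) (a j) + 2 := by
    intro i j hij
    have hij' : (i : ℝ) + 1 ≤ j := by exact_mod_cast hij
    have hijS : (i : ℝ) * S + S ≤ j * S := by nlinarith
    obtain ⟨g1, hg1⟩ := h.cov (f (((i : ℝ) * S - M) • n))
    obtain ⟨g2, hg2⟩ := h.cov (f (((i : ℝ) * S + M) • n))
    obtain ⟨g3, hg3⟩ := h.cov (f (((j : ℝ) * S + M) • n))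
    have x1 := (hsab i).2 (((i : ℝ) * S - M) • n) (by rw [inn]; linarith)
    have y1 := (hsab j).2 (((i : ℝ) * S - M) • n) (by rw [inn]; linarith)
    have x2 := (hsab i).1 (((i : ℝ) * S + M) • n) (by rw [inn]; linarith)
    have y2 := (hsab j).2 (((i : ℝ) * S + M) • n) (by rw [inn]; linarith)
    have x3 := (hsab i).1 (((j : ℝ) * S + M) • n) (by rw [inn]; linarith)
    have y3 := (hsab j).1 (((j : ℝ) * S + M) • n) (by rw [inn]; linarith)
    exact coherent h.tree (hab i) (hab j)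
      (h.side_all (hab i).symm (sy x1.1) x1.2 hg1) (h.side_all (hab j).symm (sy y1.1) y1.2 hg1)
      (h.side_all (hab i) x2.1 x2.2 hg2) (h.side_all (hab j).symm (sy y2.1) y2.2 hg2)
      (h.side_all (hab i) x3.1 x3.2 hg3) (h.side_all (hab j) y3.1 y3.2 hg3)
  -- a vector orthogonal to the normal vector
  obtain ⟨w, hw, hnw⟩ : ∃ w : E k, ‖w‖ = 1 ∧ inner ℝ n w = (0 : ℝ) := by
    have h1 : ∃ w : E k, w ∈ (Submodule.span ℝ {n})ᗮ ∧ w ≠ 0 := by
      by_contra hc
      push Not at hc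
      have h2 : (Submodule.span ℝ {n})ᗮ = ⊥ := (Submodule.eq_bot_iff _).2 hc
      have h3 := Submodule.finrank_add_finrank_orthogonal (Submodule.span ℝ {n})
      rw [h2, finrank_bot, finrank_span_singleton (norm_ne_zero_iff.1 (by rw [hn]; norm_num)),
        finrank_euclideanSpace, Fintype.card_fin] at h3
      omega
    obtain ⟨w, hw, hw0⟩ := h1
    have hwn : 0 < ‖w‖ := norm_pos_iff.2 hw0
    refine ⟨‖w‖⁻¹ • w, by rw [norm_smul, norm_inv, norm_norm, inv_mul_cancel₀ hwn.ne'], ?_⟩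
    rw [real_inner_smul_right, Submodule.mem_orthogonal_singleton_iff_inner_right.1 hw, mul_zero]
  -- the edges are near the flat
  have hnear : ∀ (l : ℕ) (t : ℝ), (∃ g : G, (g • a l, g • b l) ∈ E0) ∧
      ρ (a l) (b l) (f (((l : ℝ) * S) • n + t • w)) ≤ C + M := by
    intro l t
    refine h.mid (hab l) hf hn hM (hsab l) ?_
    rw [add_sub_cancel_left, real_inner_smul_right, hnw, mul_zero]
  have hnear' : ∀ (l i : ℕ) (t : ℝ), ρ (a l) (b l) (f (((i : ℝ) * S) • n + t • w)) ≤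
      C + M + |(i : ℝ) - l| * S := by
    intro l i t
    have h1 := h.rho.lip (a l) (b l) (f (((i : ℝ) * S) • n + t • w))
      (f (((l : ℝ) * S) • n + t • w))
    have h2 : dist (f (((i : ℝ) * S) • n + t • w)) (f (((l : ℝ) * S) • n + t • w)) =
        |(i : ℝ) - l| * S := by
      rw [hf.dist_eq, dist_add_right, dist_eq_norm, ← sub_smul, norm_smul, hn, mul_one,
        ← sub_mul, Real.norm_eq_abs, abs_mul, abs_of_pos hSpos]
    rw [h2] at h1
    linarith [(hnear l t).2]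
  have hty : ∀ (l i : ℕ) (t : ℝ) (g : G), dist (f (((i : ℝ) * S) • n + t • w)) (g • o) ≤ D0 →
      (g⁻¹ • a l, g⁻¹ • b l) ∈ {e : V × V | (∃ k : G, (k • e.1, k • e.2) ∈ E0) ∧
        ρ e.1 e.2 o ≤ C + M + |(i : ℝ) - l| * S + D0} := fun l i t g hg =>
    h.type (hab l) hg (hnear l t).1 (hnear' l i t)
  -- the first pigeonhole principle
  choose γ hγ using fun j : ℕ => h.cov (f (((j : ℝ) * S) • n + (0 : ℝ) • w))
  set F1 : Set (V × V) := {e : V × V | (∃ k : G, (k • e.1, k • e.2) ∈ E0) ∧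
    ρ e.1 e.2 o ≤ C + M + m * S + D0} with hF1
  have hF1f : F1.Finite := h.loc_fin _
  have hmaps : ∀ j : ℕ, ((((γ j)⁻¹ • a j, (γ j)⁻¹ • b j),
      ((γ j)⁻¹ • a (j + m), (γ j)⁻¹ • b (j + m))) : (V × V) × (V × V)) ∈ F1 ×ˢ F1 := by
    intro j
    refine ⟨?_, ?_⟩
    · obtain ⟨h1, h2⟩ := hty j j 0 (γ j) (hγ j)
      refine ⟨h1, h2.trans ?_⟩
      rw [sub_self, abs_zero, zero_mul, add_zero]
      have : 0 ≤ (m : ℝ) * S := by positivity
      linarith
    · obtain ⟨h1, h2⟩ := hty (j + m) j 0 (γ j) (hγ j)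
      refine ⟨h1, h2.trans ?_⟩
      have : |(j : ℝ) - ((j + m : ℕ) : ℝ)| = m := by
        push_cast
        rw [sub_add_cancel_left, abs_neg, Nat.abs_cast]
      rw [this]
  obtain ⟨i, j, hij, hτ⟩ : ∃ i j : ℕ, i < j ∧
      ((((γ i)⁻¹ • a i, (γ i)⁻¹ • b i),
        ((γ i)⁻¹ • a (i + m), (γ i)⁻¹ • b (i + m))) : (V × V) × (V × V)) =
      (((γ j)⁻¹ • a j, (γ j)⁻¹ • b j), ((γ j)⁻¹ • a (j + m), (γ j)⁻¹ • b (j + m))) := by
    obtain ⟨i, -, j, -, hne, he⟩ := Set.infinite_univ.exists_ne_map_eq_of_mapsTo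
      (f := fun j : ℕ => ((((γ j)⁻¹ • a j, (γ j)⁻¹ • b j),
        ((γ j)⁻¹ • a (j + m), (γ j)⁻¹ • b (j + m))) : (V × V) × (V × V)))
      (fun j _ => hmaps j) (hF1f.prod hF1f)
    rcases lt_or_gt_of_ne hne with h1 | h1
    · exact ⟨i, j, h1, he⟩
    · exact ⟨j, i, h1, he.symm⟩
  have hτ1 := congrArg (fun z => z.1.1) hτ
  have hτ2 := congrArg (fun z => z.1.2) hτ
  have hτ3 := congrArg (fun z => z.2.1) hτ
  have hτ4 := congrArg (fun z => z.2.2) hτ
  simp only at hτ1 hτ2 hτ3 hτ4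
  set g : G := γ j * (γ i)⁻¹ with hg
  have hmv : ∀ x y : V, (γ i)⁻¹ • x = (γ j)⁻¹ • y → g • x = y := by
    intro x y hxy
    rw [hg, mul_smul, hxy, smul_inv_smul]
  have g1 := hmv _ _ hτ1
  have g2 := hmv _ _ hτ2
  have g4 := hmv _ _ hτ4
  have hsh : Sh T (a i) (b i) g := by
    unfold Sh
    rw [g1, g2, adj_D (hab i)]
    exact hcoh i j hij
  -- the second pigeonhole principle
  set K : Subgroup G := St G (a i) (b (i + m)) with hK
  set K' : Subgroup G := K ⊓ St G (a j) (b (j + m)) with hK'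
  choose δ hδ using fun t : ℕ => h.cov (f (((i : ℝ) * S) • n + (t : ℝ) • w))
  set r2 : ℝ := C + M + ((j : ℝ) + m) * S + D0 with hr2
  have hF2f := h.loc_fin r2
  set F2 : Set (V × V) := {e : V × V | (∃ k : G, (k • e.1, k • e.2) ∈ E0) ∧
    ρ e.1 e.2 o ≤ r2} with hF2
  have hm2 : ∀ (l : ℕ) (t : ℕ), l ≤ j + m → ((δ t)⁻¹ • a l, (δ t)⁻¹ • b l) ∈ F2 := by
    intro l t hl
    obtain ⟨h1, h2⟩ := hty l i t (δ t) (hδ t)
    refine ⟨h1, h2.trans ?_⟩
    have hl' : (l : ℝ) ≤ j + m := by exact_mod_cast hl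
    have hi' : (i : ℝ) ≤ j := by exact_mod_cast hij.le
    have h3 : |(i : ℝ) - l| ≤ (j : ℝ) + m := by
      rw [abs_le]
      have e1 : (0 : ℝ) ≤ i := Nat.cast_nonneg i
      have e2 : (0 : ℝ) ≤ l := Nat.cast_nonneg l
      have e3 : (0 : ℝ) ≤ m := Nat.cast_nonneg m
      constructor <;> linarith
    have h4 := mul_le_mul_of_nonneg_right h3 hSpos.le
    rw [hr2]
    linarith
  have hinf : (K' : Set G).Infinite := by
    refine inf_stab (β := ((V × V) × (V × V)) × ((V × V) × (V × V)))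
      (Y := (F2 ×ˢ F2) ×ˢ (F2 ×ˢ F2)) ((hF2f.prod hF2f).prod (hF2f.prod hF2f)) δ
      (fun g => (((g⁻¹ • a i, g⁻¹ • b i), (g⁻¹ • a (i + m), g⁻¹ • b (i + m))),
        ((g⁻¹ • a j, g⁻¹ • b j), (g⁻¹ • a (j + m), g⁻¹ • b (j + m))))) ?_ ?_ ?_
    · intro t
      exact ⟨⟨hm2 i t (by omega), hm2 (i + m) t (by omega)⟩,
        ⟨hm2 j t (by omega), hm2 (j + m) t (by omega)⟩⟩
    · intro g g' he
      have e1 := congrArg (fun z => z.1.1.1) he
      have e2 := congrArg (fun z => z.1.2.2) he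
      have e3 := congrArg (fun z => z.2.1.1) he
      have e4 := congrArg (fun z => z.2.2.2) he
      simp only at e1 e2 e3 e4
      have hfix : ∀ x : V, g⁻¹ • x = g'⁻¹ • x → (g * g'⁻¹) • x = x := by
        intro x hx
        rw [mul_smul, ← hx, smul_inv_smul]
      exact ⟨mem_St.2 ⟨hfix _ e1, hfix _ e2⟩, mem_St.2 ⟨hfix _ e3, hfix _ e4⟩⟩
    · intro g
      obtain ⟨N, hN⟩ := exists_nat_gt (2 * D0)
      by_cases hem : ∃ t0, δ t0 = g
      · obtain ⟨t0, ht0⟩ := hem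
        refine (Set.finite_Iio (t0 + N + 1)).subset ?_
        intro t ht
        rw [Set.mem_ofPred_eq] at ht
        rw [Set.mem_Iio]
        by_contra hlt
        have h1 := dist_triangle_right (f (((i : ℝ) * S) • n + (t : ℝ) • w))
          (f (((i : ℝ) * S) • n + (t0 : ℝ) • w)) (g • o)
        have h2 := hδ t
        have h3 := hδ t0
        rw [ht] at h2
        rw [ht0] at h3
        rw [hf.dist_eq, dist_add_left, dist_eq_norm, ← sub_smul, norm_smul, hw, mul_one] at h1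
        have h4 : (t0 : ℝ) + N + 1 ≤ t := by exact_mod_cast not_lt.1 hlt
        rw [Real.norm_eq_abs, abs_of_nonneg (by linarith [(Nat.cast_nonneg N : (0 : ℝ) ≤ N)])]
          at h1
        linarith
      · refine Set.finite_empty.subset ?_
        intro t ht
        exact hem ⟨t, ht⟩
  obtain ⟨A', hA1, hA2, hA3⟩ := hVA (a i) (b (i + m)) (by
    have := (chain_dist h.tree hab hcoh i m).2
    omega)
  refine z2_final h.tree h.act h.geo o (hab i) hsh hA1 hA2 hA3 (L := K') inf_le_left hinf ?_ ?_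
  · intro s hs
    obtain ⟨hs1, hs2⟩ := mem_St.1 hs.2
    rw [mem_St]
    constructor
    · rw [mul_smul, mul_smul, g1, hs1, ← g1, inv_smul_smul]
    · rw [mul_smul, mul_smul, g4, hs2, ← g4, inv_smul_smul]
  · intro s hs
    exact (mem_St.1 hs.1).1

end Pool.Agent.V7H57.FL
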