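import Pool.Agent.V7H57.FL.Dat

/-!
# Flats which cross edges
-/

set_option autoImplicit false

open Metric Set Filter Topology
open Pool.Agent.TH60.FP Pool.Agent.TH60.FP.Strip Pool.Agent.Y34.HB Pool.Agent.Y34.EL
open Pool.Agent.T6.H46.RR Pool.Agent.T6.H67.TA Pool.Agent.T6.H46.RC Pool.Agent.V7H57.RK

namespace Pool.Agent.V7H57.FL

section trees

variable {V : Type} {T : SimpleGraph V} (hT : T.IsTree)

include hT in
/-- path `p, q, …, q', p'`: no vertex is on the side of `p` and on the side of `p'` -/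
lemma no_cross {p q p' q' w : V} (h1 : T.Adj p q) (h2 : T.Adj p' q')
    (h : D T p p' = D T q q' + 2) (hw1 : D T w p < D T w q) (hw2 : D T w p' < D T w q') :
    False := by
  have e1 := adj_pm hT h1 w
  have e2 := adj_pm hT h2 w
  rw [D_comm q, D_comm p] at e1
  rw [D_comm q', D_comm p'] at e2
  have e3 := adj_pm hT h1 p'
  have e4 := adj_pm hT h1 q'
  have e5 := adj_pm hT h2 q
  have e6 := adj_pm hT h2 p
  rw [D_comm q' q, D_comm p' q] at e5
  rw [D_comm q' p, D_comm p' p] at e6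
  have f1 := sep_edge hT (adj_D h1) (w := w) (u := p') (by omega) (by omega)
  have f2 := sep_edge hT (adj_D h1) (w := w) (u := q') (by omega) (by omega)
  omega

include hT in
/-- two edges do not separate four vertices from each other -/
lemma no_quad {a b a' b' w1 w2 w3 w4 : V} (h1 : T.Adj a b) (h2 : T.Adj a' b')
    (u1 : D T w1 b < D T w1 a) (u1' : D T w1 b' < D T w1 a')
    (u2 : D T w2 b < D T w2 a) (u2' : D T w2 a' < D T w2 b')
    (u3 : D T w3 a < D T w3 b) (u3' : D T w3 b' < D T w3 a')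
    (u4 : D T w4 a < D T w4 b) (u4' : D T w4 a' < D T w4 b') : False := by
  rcases edge_cases hT h1 h2 with h | h | h | h | h | h
  · rw [h.1, h.2] at u2'; omega
  · rw [h.1, h.2] at u1'; omega
  · exact no_cross hT h1 h2.symm h u3 u3'
  · exact no_cross hT h1.symm h2 h u2 u2'
  · exact no_cross hT h1 h2 h u4 u4'
  · exact no_cross hT h1.symm h2.symm h u1 u1'

end trees

variable {X : Type} [MetricSpace X] {G : Type} [Group G] [MulAction G X]
variable {V : Type} {T : SimpleGraph V} [MulAction G V]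
variable {o : X} {D0 : ℝ} {v0 : V} {ρ : V → V → X → ℝ} {E0 : Set (V × V)} {C : ℝ} {k : ℕ}

lemma Dat.side_all (h : Dat G T o D0 v0 ρ E0 C) {a b : V} (hab : T.Adj a b) {x : X}
    (hx : ¬ Ins G ρ E0 C a b x) (hs : Sd G T o D0 v0 a b x) {g : G} (hg : dist x (g • o) ≤ D0) :
    D T (g • v0) b < D T (g • v0) a := by
  by_contra hc
  have h1 := adj_pm h.tree hab (g • v0)
  rw [D_comm b, D_comm a] at h1
  exact h.one_side hab (x := x) (y := x) (by rw [dist_self]; exact zero_le_one)
    ⟨g, hg, by omega⟩ hs (Or.inl hx)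

lemma Dat.closed (h : Dat G T o D0 v0 ρ E0 C) (a b : V) {f : E k → X} (hf : Isometry f) :
    IsClosed {z | Ins G ρ E0 C a b (f z)} := by
  have hc : Continuous (ρ a b) := by
    have : LipschitzWith 1 (ρ a b) := LipschitzWith.of_le_add_mul 1 fun x y => by
      rw [NNReal.coe_one, one_mul]; exact h.rho.lip a b x y
    exact this.continuous
  by_cases hk : ∃ g : G, (g • a, g • b) ∈ E0
  · have e : {z | Ins G ρ E0 C a b (f z)} = {z | ρ a b (f z) ≤ C} := by
      ext z
      exact ⟨fun hz => hz.2, fun hz => ⟨hk, hz⟩⟩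
    rw [e]
    exact isClosed_le (hc.comp hf.continuous) continuous_const
  · have e : {z | Ins G ρ E0 C a b (f z)} = ∅ := by
      ext z
      exact ⟨fun hz => hk hz.1, fun hz => hz.elim⟩
    rw [e]
    exact isClosed_empty

lemma Dat.convex (h : Dat G T o D0 v0 ρ E0 C) {a b : V} (hab : T.Adj a b) {f : E k → X}
    (hf : Isometry f) : Convex ℝ {z | Ins G ρ E0 C a b (f z)} := by
  intro x hx y hy s t hs ht hst
  refine ⟨hx.1, ?_⟩
  have e1 : dist x (s • x + t • y) = t * dist x y := by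
    rw [dist_eq_norm, dist_eq_norm, ← abs_of_nonneg ht, ← Real.norm_eq_abs, ← norm_smul,
      Real.norm_eq_abs, abs_of_nonneg ht]
    congr 1
    have : s = 1 - t := by linarith
    rw [this]; module
  have e2 : dist (s • x + t • y) y = s * dist x y := by
    rw [dist_eq_norm, dist_eq_norm, ← abs_of_nonneg hs, ← Real.norm_eq_abs, ← norm_smul,
      Real.norm_eq_abs, abs_of_nonneg hs]
    congr 1
    have : t = 1 - s := by linarith
    rw [this]; module
  have h1 := h.rho.conv a b hab (f x) (f y) (f (s • x + t • y)) (by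
    rw [hf.dist_eq, hf.dist_eq, hf.dist_eq, e1, e2, ← add_mul, add_comm t, hst, one_mul])
  rw [hf.dist_eq, hf.dist_eq, hf.dist_eq, e1, e2] at h1
  rcases eq_or_lt_of_le (dist_nonneg (x := x) (y := y)) with h0 | h0
  · have : s • x + t • y = x := by
      rw [← dist_eq_zero.1 h0.symm, ← add_smul, hst, one_smul]
    rw [this]; exact hx.2
  · have h2 : s * dist x y * ρ a b (f x) + t * dist x y * ρ a b (f y) ≤ dist x y * C := by
      have i1 := mul_le_mul_of_nonneg_left hx.2 (mul_nonneg hs h0.le)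
      have i2 := mul_le_mul_of_nonneg_left hy.2 (mul_nonneg ht h0.le)
      have i3 : dist x y * C = s * dist x y * C + t * dist x y * C := by
        rw [← add_mul, ← add_mul, hst, one_mul]
      linarith
    exact le_of_mul_le_mul_left (h1.trans h2) h0

/-- points of a convex set outside are on the same side -/
lemma Dat.same (h : Dat G T o D0 v0 ρ E0 C) {a b : V} (hab : T.Adj a b) {f : E k → X}
    (hf : Isometry f) {H : Set (E k)} (hH : Convex ℝ H) (hd : ∀ z ∈ H, ¬ Ins G ρ E0 C a b (f z))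
    {z w : E k} (hz : z ∈ H) (hw : w ∈ H) (hs : Sd G T o D0 v0 a b (f z)) :
    Sd G T o D0 v0 a b (f w) := by
  obtain ⟨N, hN⟩ := exists_nat_gt ‖w - z‖
  have hN0 : (0 : ℝ) < N := lt_of_le_of_lt (norm_nonneg _) hN
  have hmem : ∀ i : ℕ, i ≤ N → z + ((i : ℝ) / N) • (w - z) ∈ H := by
    intro i hi
    refine hH.add_smul_sub_mem hz hw ⟨by positivity, ?_⟩
    rw [div_le_one hN0]
    exact_mod_cast hi
  have key : ∀ i : ℕ, i ≤ N → Sd G T o D0 v0 a b (f (z + ((i : ℝ) / N) • (w - z))) := by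
    intro i
    induction i with
    | zero => intro _; simpa using hs
    | succ i ih =>
      intro hi
      have h1 := ih (by omega)
      rcases h.side hab (f (z + (((i + 1 : ℕ) : ℝ) / N) • (w - z))) with h2 | h2
      · exact h2
      · refine (h.one_side hab ?_ h2 h1 (Or.inl (hd _ (hmem _ hi)))).elim
        rw [hf.dist_eq, dist_eq_norm]
        have e : z + (((i + 1 : ℕ) : ℝ) / N) • (w - z) - (z + ((i : ℝ) / N) • (w - z)) =
            (1 / (N : ℝ)) • (w - z) := by
          push_cast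
          rw [add_div]
          module
        rw [e, norm_smul, Real.norm_of_nonneg (by positivity), div_mul_eq_mul_div, one_mul,
          div_le_one hN0]
        exact hN.le
  have h1 := key N le_rfl
  rw [div_self hN0.ne', one_smul, add_sub_cancel] at h1
  exact h1

/-- the edge `a, b` separates the flat `f` along the slab with the centre `p` and the normal
vector `n` -/
def Sep (G : Type) [Group G] [MulAction G V] [MulAction G X] (T : SimpleGraph V) (o : X)
    (D0 : ℝ) (v0 : V) (ρ : V → V → X → ℝ) (E0 : Set (V × V)) (C : ℝ) (f : E k → X) (a b : V)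
    (p n : E k) (M : ℝ) : Prop :=
  (∀ z, M ≤ inner ℝ n (z - p) → ¬ Ins G ρ E0 C a b (f z) ∧ Sd G T o D0 v0 a b (f z)) ∧
    ∀ z, inner ℝ n (z - p) ≤ -M → ¬ Ins G ρ E0 C a b (f z) ∧ Sd G T o D0 v0 b a (f z)

lemma Sep.neg (h : Dat G T o D0 v0 ρ E0 C) {f : E k → X} {a b : V} {p n : E k} {M : ℝ}
    (hs : Sep G T o D0 v0 ρ E0 C f a b p (-n) M) : Sep G T o D0 v0 ρ E0 C f b a p n M := by
  refine ⟨fun z hz => ?_, fun z hz => ?_⟩
  · obtain ⟨h1, h2⟩ := hs.2 z (by rw [inner_neg_left]; linarith)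
    exact ⟨fun hi => h1 (hi.symm h), h2⟩
  · obtain ⟨h1, h2⟩ := hs.1 z (by rw [inner_neg_left]; linarith)
    exact ⟨fun hi => h1 (hi.symm h), h2⟩

/-- large multiples -/
lemma large {c u : ℝ} (hc : 0 < c) : ∃ y : ℝ, ∀ x, y ≤ x → u ≤ x * c := by
  refine ⟨u / c, fun x hx => ?_⟩
  rwa [div_le_iff₀ hc] at hx

lemma unit_eq_neg {n m : E k} (hn : ‖n‖ = 1) (hm : ‖m‖ = 1) (h : inner ℝ n m ≤ (-1 : ℝ)) :
    m = -n := by
  have h1 : ‖n + m‖ ^ 2 ≤ 0 := by
    rw [norm_add_sq_real, hn, hm]; linarith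
  have h2 : n + m = 0 := by
    have : ‖n + m‖ = 0 := by
      have := sq_nonneg ‖n + m‖
      exact pow_eq_zero_iff two_ne_zero |>.1 (le_antisymm h1 this)
    exact norm_eq_zero.1 this
  exact (neg_eq_of_add_eq_zero_right h2).symm

theorem Dat.sep (h : Dat G T o D0 v0 ρ E0 C) {a b : V} (hab : T.Adj a b) {f : E k → X}
    (hf : Isometry f) {p z1 z2 : E k} {M : ℝ} (hz1 : dist z1 p ≤ M) (hz2 : dist z2 p ≤ M)
    (h1 : ¬ Ins G ρ E0 C a b (f z1)) (h2 : ¬ Ins G ρ E0 C a b (f z2))
    (s1 : Sd G T o D0 v0 b a (f z1)) (s2 : Sd G T o D0 v0 a b (f z2)) :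
    ∃ n : E k, ‖n‖ = 1 ∧ Sep G T o D0 v0 ρ E0 C f a b p n M := by
  have contra : ∀ x : X, ¬ Ins G ρ E0 C a b x → Sd G T o D0 v0 b a x → Sd G T o D0 v0 a b x →
      False := fun x e1 e2 e3 =>
    h.one_side hab (by rw [dist_self]; exact zero_le_one) e2 e3 (Or.inl e1)
  have hsym : ∀ x : X, ¬ Ins G ρ E0 C a b x → ¬ Ins G ρ E0 C b a x := fun x hx hi =>
    hx (hi.symm h)
  -- the convex set is not empty
  obtain ⟨z0, hz0⟩ : ∃ z, Ins G ρ E0 C a b (f z) := by
    by_contra hc
    push Not at hc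
    have e := h.same hab hf (H := univ) convex_univ (fun z _ => hc z) (mem_univ z2)
      (mem_univ z1) s2
    exact contra _ h1 s1 e
  have sepa : ∀ z : E k, ¬ Ins G ρ E0 C a b (f z) → ∃ (n : E k) (c u : ℝ), ‖n‖ = 1 ∧ 0 < c ∧
      (∀ w, u ≤ c * inner ℝ n w → ¬ Ins G ρ E0 C a b (f w)) ∧ u ≤ c * inner ℝ n z := by
    intro z hz
    obtain ⟨φ, u, hu1, hu2⟩ := geometric_hahn_banach_closed_point (h.convex hab hf)
      (h.closed a b hf) hz
    set m := (InnerProductSpace.toDual ℝ (E k)).symm φ with hm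
    have hφ : ∀ w, φ w = inner ℝ m w := by
      intro w
      rw [hm, InnerProductSpace.toDual_symm_apply]
    have hm0 : m ≠ 0 := by
      intro h0
      have e1 := hu1 z0 hz0
      rw [hφ, h0, inner_zero_left] at e1
      rw [hφ, h0, inner_zero_left] at hu2
      linarith
    have hmn : 0 < ‖m‖ := norm_pos_iff.2 hm0
    have e : ∀ w, ‖m‖ * inner ℝ (‖m‖⁻¹ • m) w = φ w := by
      intro w
      rw [real_inner_smul_left, hφ, ← mul_assoc, mul_inv_cancel₀ hmn.ne', one_mul]
    refine ⟨‖m‖⁻¹ • m, ‖m‖, u, ?_, hmn, fun w hw hi => ?_, ?_⟩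
    · rw [norm_smul, norm_inv, norm_norm, inv_mul_cancel₀ hmn.ne']
    · rw [e] at hw
      have := hu1 w hi
      linarith
    · rw [e]; exact hu2.le
  obtain ⟨n1, c1, u1, hn1, hc1, hd1, hu1⟩ := sepa z1 h1
  obtain ⟨n2, c2, u2, hn2, hc2, hd2, hu2⟩ := sepa z2 h2
  have hconv : ∀ (n : E k) (c u : ℝ), Convex ℝ {w : E k | u ≤ c * inner ℝ n w} := by
    intro n c u x hx y hy s t hs ht hst
    show u ≤ c * inner ℝ n (s • x + t • y)
    rw [inner_add_right, real_inner_smul_right, real_inner_smul_right]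
    have i1 := mul_le_mul_of_nonneg_left (show u ≤ c * inner ℝ n x from hx) hs
    have i2 := mul_le_mul_of_nonneg_left (show u ≤ c * inner ℝ n y from hy) ht
    have i3 : u = s * u + t * u := by rw [← add_mul, hst, one_mul]
    rw [i3]
    linarith
  have side1 : ∀ w, u1 ≤ c1 * inner ℝ n1 w → Sd G T o D0 v0 b a (f w) := fun w hw =>
    h.same hab.symm hf (hconv n1 c1 u1) (fun z hz => hsym _ (hd1 z hz)) hu1 hw s1
  have side2 : ∀ w, u2 ≤ c2 * inner ℝ n2 w → Sd G T o D0 v0 a b (f w) := fun w hw =>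
    h.same hab hf (hconv n2 c2 u2) hd2 hu2 hw s2
  have hneg : n2 = -n1 := by
    refine unit_eq_neg hn1 hn2 ?_
    by_contra hc
    push Not at hc
    have hpos : 0 < 1 + inner ℝ n1 n2 := by linarith
    obtain ⟨y1, hy1⟩ := large (c := c1 * (1 + inner ℝ n1 n2)) (u := u1) (by positivity)
    obtain ⟨y2, hy2⟩ := large (c := c2 * (1 + inner ℝ n1 n2)) (u := u2) (by positivity)
    have i1 : inner ℝ n1 (max y1 y2 • (n1 + n2)) = max y1 y2 * (1 + inner ℝ n1 n2) := by
      rw [real_inner_smul_right, inner_add_right, real_inner_self_eq_norm_sq, hn1]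
      ring
    have i2 : inner ℝ n2 (max y1 y2 • (n1 + n2)) = max y1 y2 * (1 + inner ℝ n1 n2) := by
      rw [real_inner_smul_right, inner_add_right, real_inner_self_eq_norm_sq, hn2,
        real_inner_comm]
      ring
    have j1 := hy1 _ (le_max_left y1 y2)
    have j2 := hy2 _ (le_max_right y1 y2)
    have k1 : u1 ≤ c1 * inner ℝ n1 (max y1 y2 • (n1 + n2)) := by
      rw [i1]
      calc u1 ≤ _ := j1
        _ = _ := by ring
    have k2 : u2 ≤ c2 * inner ℝ n2 (max y1 y2 • (n1 + n2)) := by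
      rw [i2]
      calc u2 ≤ _ := j2
        _ = _ := by ring
    exact contra _ (hd1 _ k1) (side1 _ k1) (side2 _ k2)
  have bound : ∀ (n z : E k), ‖n‖ = 1 → dist z p ≤ M → inner ℝ n (z - p) ≤ M := by
    intro n z hn hz
    refine (real_inner_le_norm _ _).trans ?_
    rw [hn, one_mul, ← dist_eq_norm]; exact hz
  refine ⟨n2, hn2, fun z hz => ?_, fun z hz => ?_⟩
  · have i1 := bound n2 z2 hn2 hz2
    rw [inner_sub_right] at i1 hz
    have i2 : u2 ≤ c2 * inner ℝ n2 z := hu2.trans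
      (mul_le_mul_of_nonneg_left (by linarith) hc2.le)
    exact ⟨hd2 _ i2, side2 _ i2⟩
  · have i1 := bound n1 z1 hn1 hz1
    rw [hneg, inner_neg_left] at hz
    rw [inner_sub_right] at i1 hz
    have i2 : u1 ≤ c1 * inner ℝ n1 z := hu1.trans
      (mul_le_mul_of_nonneg_left (by linarith) hc1.le)
    exact ⟨hd1 _ i2, side1 _ i2⟩

/-- all points of the middle hyperplane are near the edge -/
lemma Dat.mid (h : Dat G T o D0 v0 ρ E0 C) {a b : V} (hab : T.Adj a b) {f : E k → X}
    (hf : Isometry f) {p n : E k} (hn : ‖n‖ = 1) {M : ℝ} (hM : 0 ≤ M)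
    (hs : Sep G T o D0 v0 ρ E0 C f a b p n M) {q : E k} (hq : inner ℝ n (q - p) = (0 : ℝ)) :
    (∃ g : G, (g • a, g • b) ∈ E0) ∧ ρ a b (f q) ≤ C + M := by
  have e1 : ∀ t : ℝ, inner ℝ n (q + t • n - p) = t := by
    intro t
    rw [show q + t • n - p = (q - p) + t • n by abel, inner_add_right, hq,
      real_inner_smul_right, real_inner_self_eq_norm_sq, hn]
    ring
  by_contra hc
  have hd : ∀ z ∈ segment ℝ (q + (-M) • n) (q + M • n), ¬ Ins G ρ E0 C a b (f z) := by
    intro z hz hi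
    apply hc
    refine ⟨hi.1, ?_⟩
    have h1 := h.rho.lip a b (f q) (f z)
    rw [hf.dist_eq] at h1
    have h2 : dist q z ≤ M := by
      have hsub : segment ℝ (q + (-M) • n) (q + M • n) ⊆ closedBall q M := by
        refine (convex_closedBall q M).segment_subset ?_ ?_
        · rw [mem_closedBall, dist_eq_norm, add_sub_cancel_left, norm_smul, hn, norm_neg,
            Real.norm_of_nonneg hM, mul_one]
        · rw [mem_closedBall, dist_eq_norm, add_sub_cancel_left, norm_smul, hn,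
            Real.norm_of_nonneg hM, mul_one]
      rw [dist_comm]
      exact mem_closedBall.1 (hsub hz)
    linarith [hi.2]
  obtain ⟨i1, i2⟩ := hs.1 (q + M • n) (by rw [e1])
  obtain ⟨j1, j2⟩ := hs.2 (q + (-M) • n) (by rw [e1])
  have := h.same hab hf (convex_segment _ _) hd (right_mem_segment ℝ _ _)
    (left_mem_segment ℝ _ _) i2
  exact h.one_side hab (by rw [dist_self]; exact zero_le_one) j2 this (Or.inl j1)

/-- all separating slabs are parallel -/
lemma Dat.par (h : Dat G T o D0 v0 ρ E0 C) {a b a' b' : V} (hab : T.Adj a b)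
    (hab' : T.Adj a' b') {f : E k → X} {p n p' n' : E k} {M M' : ℝ} (hn : ‖n‖ = 1)
    (hn' : ‖n'‖ = 1) (hs : Sep G T o D0 v0 ρ E0 C f a b p n M)
    (hs' : Sep G T o D0 v0 ρ E0 C f a' b' p' n' M') : n' = n ∨ n' = -n := by
  by_contra hc
  push Not at hc
  have c1 : (-1 : ℝ) < inner ℝ n n' := by
    by_contra h1
    exact hc.2 (unit_eq_neg hn hn' (not_lt.1 h1))
  have c2 : inner ℝ n n' < (1 : ℝ) := by
    by_contra h1
    have h2 := unit_eq_neg (n := -n) (m := n') (by rw [norm_neg, hn]) hn'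
      (by rw [inner_neg_left]; linarith)
    rw [neg_neg] at h2
    exact hc.1 h2
  set c : ℝ := inner ℝ n n' with hcd
  have hdet : 0 < 1 - c ^ 2 := by nlinarith
  -- points with prescribed coordinates
  have hex : ∀ s t : ℝ, ∃ z : E k, inner ℝ n z = s ∧ inner ℝ n' z = t := by
    intro s t
    refine ⟨((s - c * t) / (1 - c ^ 2)) • n + ((t - c * s) / (1 - c ^ 2)) • n', ?_, ?_⟩
    · rw [inner_add_right, real_inner_smul_right, real_inner_smul_right,
        real_inner_self_eq_norm_sq, hn, ← hcd]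
      field_simp
      ring
    · rw [inner_add_right, real_inner_smul_right, real_inner_smul_right,
        real_inner_self_eq_norm_sq, hn', real_inner_comm, ← hcd]
      field_simp
      ring
  have hv : ∀ s t : ℝ, ∃ (z : E k) (g : G), inner ℝ n (z - p) = s ∧ inner ℝ n' (z - p') = t ∧
      dist (f z) (g • o) ≤ D0 := by
    intro s t
    obtain ⟨z, hz1, hz2⟩ := hex (s + inner ℝ n p) (t + inner ℝ n' p')
    obtain ⟨g, hg⟩ := h.cov (f z)
    exact ⟨z, g, by rw [inner_sub_right, hz1]; ring, by rw [inner_sub_right, hz2]; ring, hg⟩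
  obtain ⟨z1, g1, x1, y1, d1⟩ := hv M M'
  obtain ⟨z2, g2, x2, y2, d2⟩ := hv M (-M')
  obtain ⟨z3, g3, x3, y3, d3⟩ := hv (-M) M'
  obtain ⟨z4, g4, x4, y4, d4⟩ := hv (-M) (-M')
  have sy : ∀ {a b : V} {x : X}, ¬ Ins G ρ E0 C a b x → ¬ Ins G ρ E0 C b a x :=
    fun hx hi => hx (hi.symm h)
  have p1 := hs.1 z1 x1.ge
  have q1 := hs'.1 z1 y1.ge
  have p2 := hs.1 z2 x2.ge
  have q2 := hs'.2 z2 y2.le
  have p3 := hs.2 z3 x3.le
  have q3 := hs'.1 z3 y3.ge
  have p4 := hs.2 z4 x4.le
  have q4 := hs'.2 z4 y4.le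
  exact no_quad h.tree hab hab' (h.side_all hab p1.1 p1.2 d1) (h.side_all hab' q1.1 q1.2 d1)
    (h.side_all hab p2.1 p2.2 d2) (h.side_all hab'.symm (sy q2.1) q2.2 d2)
    (h.side_all hab.symm (sy p3.1) p3.2 d3) (h.side_all hab' q3.1 q3.2 d3)
    (h.side_all hab.symm (sy p4.1) p4.2 d4) (h.side_all hab'.symm (sy q4.1) q4.2 d4)

end Pool.Agent.V7H57.FL
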