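import Pool.Agent.V7H57.RK.Ab

/-!
# Equivariant families of convex functions indexed by the edges of a tree
-/

set_option autoImplicit false

open Metric Set Filter Topology
open Pool.Agent.TH60.FP Pool.Agent.TH60.FP.Strip Pool.Agent.Y34.HB Pool.Agent.Y34.EL
open Pool.Agent.T6.H46.RR Pool.Agent.T6.H67.TA Pool.Agent.T6.H46.RC Pool.Agent.V7H57.RK

namespace Pool.Agent.V7H57.FL

variable {X : Type} [MetricSpace X] {G : Type} [Group G] [MulAction G X]
variable {V : Type} {T : SimpleGraph V} [MulAction G V]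

/-- an equivariant family of functions, the distances from convex sets on which the edge
stabilisers act cocompactly -/
structure Rho (G : Type) [Group G] [MulAction G X] [MulAction G V] (T : SimpleGraph V)
    (ρ : V → V → X → ℝ) : Prop where
  symm : ∀ a b x, ρ a b x = ρ b a x
  inv : ∀ a b, T.Adj a b → ∀ (g : G) x, ρ (g • a) (g • b) (g • x) = ρ a b x
  lip : ∀ a b x y, ρ a b x ≤ ρ a b y + dist x y
  conv : ∀ a b, T.Adj a b → ∀ x y m, dist x m + dist m y = dist x y →
    dist x y * ρ a b m ≤ dist m y * ρ a b x + dist x m * ρ a b y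
  coc : ∀ a b, T.Adj a b → ∀ (o : X) (r : ℝ), ∃ R : ℝ, ∀ x, ρ a b x ≤ r →
    ∃ g ∈ St G a b, dist (g • x) o ≤ R

theorem exists_rho (hG : Geo X G)
    (hact : ∀ (g : G) (u v : V), T.Adj u v → T.Adj (g • u) (g • v))
    (hE : ∀ a b : V, T.Adj a b → ∃ B : Set X, CC (St G a b) B) :
    ∃ ρ : V → V → X → ℝ, Rho G T ρ := by
  classical
  have := hG.isom
  have := hG.proper
  -- representatives of the orbits
  let q : V × V → V × V := fun e => (Quotient.mk (MulAction.orbitRel G (V × V)) e).out
  have hq : ∀ e, ∃ t : G, t • q e = e := by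
    intro e
    have h1 : (MulAction.orbitRel G (V × V)).r (q e) e :=
      Quotient.mk_out (s := MulAction.orbitRel G (V × V)) e
    obtain ⟨g, hg⟩ := h1
    exact ⟨g⁻¹, by rw [← hg]; exact inv_smul_smul g e⟩
  choose t ht using hq
  have hqg : ∀ (g : G) (e : V × V), q (g • e) = q e := by
    intro g e
    have : Quotient.mk (MulAction.orbitRel G (V × V)) (g • e) =
        Quotient.mk (MulAction.orbitRel G (V × V)) e :=
      Quotient.sound (s := MulAction.orbitRel G (V × V)) ⟨g, rfl⟩
    show (Quotient.mk (MulAction.orbitRel G (V × V)) (g • e)).out = _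
    rw [this]
  have hadj : ∀ e : V × V, T.Adj e.1 e.2 → T.Adj (q e).1 (q e).2 := by
    intro e he
    have h1 : q e = (t e)⁻¹ • e := by rw [eq_inv_smul_iff, ht]
    rw [h1]
    exact hact _ _ _ he
  have hB : ∀ e : V × V, ∃ B : Set X, T.Adj e.1 e.2 → CC (St G e.1 e.2) B := by
    intro e
    by_cases he : T.Adj e.1 e.2
    · obtain ⟨B, hB⟩ := hE _ _ he
      exact ⟨B, fun _ => hB⟩
    · exact ⟨∅, fun h => absurd h he⟩
  choose B hB using hB
  let r0 : V × V → X → ℝ := fun e x => ph (B (q e)) (t e) x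
  have hst : ∀ (e : V × V) (k : G), k • e = e → k ∈ St G e.1 e.2 := by
    intro e k hk
    rw [mem_St]
    exact ⟨congrArg Prod.fst hk, congrArg Prod.snd hk⟩
  have r_inv : ∀ e : V × V, T.Adj e.1 e.2 → ∀ (g : G) x, r0 (g • e) (g • x) = r0 e x := by
    intro e he g x
    show infDist ((t (g • e))⁻¹ • g • x) (B (q (g • e))) = infDist ((t e)⁻¹ • x) (B (q e))
    rw [hqg]
    have hk : ((t (g • e))⁻¹ * g * t e) • q e = q e := by
      rw [mul_smul, mul_smul, ht, inv_smul_eq_iff]
      conv_lhs => rw [← ht (g • e), hqg]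
    have h1 := infDist_inv (hB _ (hadj e he)) (hst _ _ hk) ((t e)⁻¹ • x)
    rw [← h1]
    congr 1
    rw [smul_smul, smul_smul]
    congr 1
    group
  have r_lip : ∀ e x y, r0 e x ≤ r0 e y + dist x y := by
    intro e x y
    have := ph_lip (B (q e)) (t e) x y
    rw [abs_le] at this
    show ph (B (q e)) (t e) x ≤ ph (B (q e)) (t e) y + dist x y
    linarith
  refine ⟨fun a b x => max (r0 (a, b) x) (r0 (b, a) x), ?_, ?_, ?_, ?_, ?_⟩
  · intro a b x
    exact max_comm _ _
  · intro a b hab g x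
    show max (r0 (g • (a, b)) (g • x)) (r0 (g • (b, a)) (g • x)) = _
    rw [r_inv (a, b) hab, r_inv (b, a) hab.symm]
  · intro a b x y
    have h1 := r_lip (a, b) x y
    have h2 := r_lip (b, a) x y
    refine max_le ?_ ?_
    · exact h1.trans (add_le_add_left (le_max_left _ _) _)
    · exact h2.trans (add_le_add_left (le_max_right _ _) _)
  · intro a b hab x y m hm
    have h1 := ph_convex hG.cn (hB _ (hadj (a, b) hab)) (t (a, b)) x y m hm
    have h2 := ph_convex hG.cn (hB _ (hadj (b, a) hab.symm)) (t (b, a)) x y m hm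
    show dist x y * max (ph (B (q (a, b))) (t (a, b)) m) (ph (B (q (b, a))) (t (b, a)) m) ≤
      dist m y * max (ph (B (q (a, b))) (t (a, b)) x) (ph (B (q (b, a))) (t (b, a)) x) +
      dist x m * max (ph (B (q (a, b))) (t (a, b)) y) (ph (B (q (b, a))) (t (b, a)) y)
    have e1 := mul_le_mul_of_nonneg_left (le_max_left (ph (B (q (a, b))) (t (a, b)) x)
      (ph (B (q (b, a))) (t (b, a)) x)) (dist_nonneg (x := m) (y := y))
    have e2 := mul_le_mul_of_nonneg_left (le_max_right (ph (B (q (a, b))) (t (a, b)) x)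
      (ph (B (q (b, a))) (t (b, a)) x)) (dist_nonneg (x := m) (y := y))
    have e3 := mul_le_mul_of_nonneg_left (le_max_left (ph (B (q (a, b))) (t (a, b)) y)
      (ph (B (q (b, a))) (t (b, a)) y)) (dist_nonneg (x := x) (y := m))
    have e4 := mul_le_mul_of_nonneg_left (le_max_right (ph (B (q (a, b))) (t (a, b)) y)
      (ph (B (q (b, a))) (t (b, a)) y)) (dist_nonneg (x := x) (y := m))
    rw [mul_max_of_nonneg _ _ dist_nonneg]
    exact max_le (by linarith) (by linarith)
  · intro a b hab o r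
    have hcc := hB _ (hadj (a, b) hab)
    obtain ⟨C, hC, hcov⟩ := hcc.cc
    obtain ⟨D, hD⟩ := (hC.image (continuous_const_smul (t (a, b)))).isBounded.subset_closedBall o
    refine ⟨r + D, fun x hx => ?_⟩
    have hx' : infDist ((t (a, b))⁻¹ • x) (B (q (a, b))) ≤ r := (le_max_left _ _).trans hx
    obtain ⟨z, hz, hz'⟩ := hcc.closed.exists_infDist_eq_dist hcc.ne ((t (a, b))⁻¹ • x)
    rw [hz'] at hx'
    obtain ⟨h, hh, hhz⟩ := hcov z hz
    refine ⟨t (a, b) * h * (t (a, b))⁻¹, ?_, ?_⟩
    · refine hst (a, b) _ ?_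
      rw [mem_St] at hh
      have h1 : h • q (a, b) = q (a, b) := Prod.ext hh.1 hh.2
      have h2 : (t (a, b))⁻¹ • ((a, b) : V × V) = q (a, b) := by rw [inv_smul_eq_iff, ht]
      rw [mul_smul, mul_smul, h2, h1, ht]
    · have h1 : dist (t (a, b) • h • z) o ≤ D := mem_closedBall.1 (hD ⟨_, hhz, rfl⟩)
      have h2 := dist_triangle (t (a, b) • h • (t (a, b))⁻¹ • x) (t (a, b) • h • z) o
      rw [dist_smul, dist_smul] at h2
      rw [mul_smul, mul_smul]
      linarith

end Pool.Agent.V7H57.FL
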